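import Mathlib

/-! Power series with nonnegative coefficients, and Parseval's identity on circles. -/

namespace Pool.Agent.P.MP_2b44f0_gt.Gap

open MeasureTheory Filter Topology Complex
open scoped Real

/-- sums of power series with nonnegative coefficients on `[0, 1)` -/
def AM (S : ℝ → ℝ) : Prop :=
  ∃ q : ℕ → ℝ, (∀ j, 0 ≤ q j) ∧ ∀ x, 0 ≤ x → x < 1 → HasSum (fun j => q j * x ^ j) (S x)

namespace AM

variable {S T : ℝ → ℝ}

theorem congr (h : AM S) (e : ∀ x, 0 ≤ x → x < 1 → T x = S x) : AM T := by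
  obtain ⟨q, hq, hs⟩ := h
  exact ⟨q, hq, fun x h0 h1 => e x h0 h1 ▸ hs x h0 h1⟩

theorem const_mul (h : AM S) {c : ℝ} (hc : 0 ≤ c) : AM fun x => c * S x := by
  obtain ⟨q, hq, hs⟩ := h
  exact ⟨fun j => c * q j, fun j => mul_nonneg hc (hq j), fun x h0 h1 => by
    simpa only [mul_assoc] using (hs x h0 h1).mul_left c⟩

theorem nonneg (h : AM S) {x : ℝ} (h0 : 0 ≤ x) (h1 : x < 1) : 0 ≤ S x := by
  obtain ⟨q, hq, hs⟩ := h
  exact (hs x h0 h1).nonneg fun j => mul_nonneg (hq j) (pow_nonneg h0 j)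

theorem mono (h : AM S) {x y : ℝ} (h0 : 0 ≤ x) (hxy : x ≤ y) (h1 : y < 1) : S x ≤ S y := by
  obtain ⟨q, hq, hs⟩ := h
  exact hasSum_le (fun j => mul_le_mul_of_nonneg_left (pow_le_pow_left₀ h0 hxy j) (hq j))
    (hs x h0 (hxy.trans_lt h1)) (hs y (h0.trans hxy) h1)

theorem shift (h : AM S) : ∃ T, AM T ∧ ∀ x, 0 ≤ x → x < 1 → S x = S 0 + x * T x := by
  obtain ⟨q, hq, hs⟩ := h
  have z : ∀ u : ℕ → ℝ, HasSum (fun j => u j * (0 : ℝ) ^ j) (u 0) := fun u => by
    simpa using hasSum_single (f := fun j => u j * (0 : ℝ) ^ j) 0 fun j hj => by simp [hj]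
  have h0 : S 0 = q 0 := (hs 0 le_rfl one_pos).unique (z q)
  refine ⟨fun x => if x = 0 then q 1 else (S x - q 0) / x, ⟨fun j => q (j + 1), fun j => hq _,
    fun x hx h1 => ?_⟩, fun x hx h1 => ?_⟩
  · by_cases e : x = 0
    · subst e
      simpa using z fun j => q (j + 1)
    · have := ((hasSum_nat_add_iff' 1).2 (hs x hx h1)).div_const x
      have e1 : ∀ j, q (j + 1) * x ^ (j + 1) / x = q (j + 1) * x ^ j := fun j => by
        rw [pow_succ, ← mul_assoc, mul_div_cancel_right₀ _ e]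
      simpa only [if_neg e, e1, Finset.sum_range_one, pow_zero, mul_one] using this
  · by_cases e : x = 0
    · simp [e]
    · simp only [if_neg e, h0]
      field_simp
      ring

theorem tendsto (h : AM S) : Tendsto S (𝓝[>] 0) (𝓝 (S 0)) := by
  obtain ⟨T, hT, e⟩ := h.shift
  have ev : ∀ᶠ x : ℝ in 𝓝[>] 0, x ∈ Set.Ioo (0 : ℝ) (1 / 2) := Ioo_mem_nhdsGT (by norm_num)
  have t : Tendsto (fun x : ℝ => S 0 + x * T (1 / 2)) (𝓝[>] 0) (𝓝 (S 0)) := by
    have : Continuous fun x : ℝ => S 0 + x * T (1 / 2) := by fun_prop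
    simpa using (this.tendsto 0).mono_left nhdsWithin_le_nhds
  refine tendsto_of_tendsto_of_tendsto_of_le_of_le' tendsto_const_nhds t ?_ ?_
  · filter_upwards [ev] with x hx using h.mono le_rfl hx.1.le (by linarith [hx.2])
  · filter_upwards [ev] with x hx
    rw [e x hx.1.le (by linarith [hx.2])]
    have := hT.mono hx.1.le hx.2.le (by norm_num)
    nlinarith [hx.1]

end AM

theorem int_cexp (i j : ℕ) :
    ∫ θ in (0 : ℝ)..2 * π, cexp ((((i : ℤ) - j : ℤ) : ℂ) * I * θ) =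
      if i = j then 2 * π else 0 := by
  split_ifs with h
  · simp [h]
  · have hc : (((i : ℤ) - j : ℤ) : ℂ) * I ≠ 0 :=
      mul_ne_zero (Int.cast_ne_zero.2 (sub_ne_zero.2 (by exact_mod_cast h))) I_ne_zero
    rw [integral_exp_mul_complex hc]
    have : (((i : ℤ) - j : ℤ) : ℂ) * I * ((2 * π : ℝ) : ℂ) = ((i : ℤ) - j : ℤ) * (2 * π * I) := by
      push_cast; ring
    rw [this, Complex.exp_int_mul_two_pi_mul_I]
    simp

theorem hasSum_mul_conj {u : ℕ → ℂ} {s : ℂ} (h : HasSum u s) :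
    HasSum (fun p : ℕ × ℕ => u p.1 * (starRingEnd ℂ) (u p.2)) ((‖s‖ ^ 2 : ℝ) : ℂ) := by
  have h2 : HasSum (fun j => (starRingEnd ℂ) (u j)) ((starRingEnd ℂ) s) := h.star
  have h3 : Summable fun p : ℕ × ℕ => u p.1 * (starRingEnd ℂ) (u p.2) :=
    summable_mul_of_summable_norm (f := u) (g := fun j => (starRingEnd ℂ) (u j))
      h.summable.norm h2.summable.norm
  have := HasSum.mul (f := u) (g := fun j => (starRingEnd ℂ) (u j)) h h2 h3
  rwa [Complex.mul_conj', ← Complex.ofReal_pow] at this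

theorem parseval {a : ℕ → ℂ} {A : ℂ → ℂ} (h : ∀ z, HasSum (fun j => a j * z ^ j) (A z))
    {r : ℝ} (hr : 0 ≤ r) :
    HasSum (fun j => 2 * π * ‖a j‖ ^ 2 * (r ^ 2) ^ j)
      (∫ θ in (0 : ℝ)..2 * π, ‖A (r * cexp (θ * I))‖ ^ 2) := by
  have hp : (0 : ℝ) ≤ 2 * π := by positivity
  have hn : ∀ (θ : ℝ) j, ‖a j * (r * cexp (θ * I)) ^ j‖ = ‖a j‖ * r ^ j := fun θ j => by
    simp [abs_of_nonneg hr]
  have hs : Summable fun j => ‖a j‖ * r ^ j := by
    simpa only [hn] using (h (r * cexp ((0 : ℝ) * I))).summable.norm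
  let F : ℕ × ℕ → ℝ → ℂ := fun p θ => a p.1 * (r * cexp (θ * I)) ^ p.1 *
    (starRingEnd ℂ) (a p.2 * (r * cexp (θ * I)) ^ p.2)
  have hF : ∀ p θ, F p θ = a p.1 * (starRingEnd ℂ) (a p.2) * r ^ (p.1 + p.2) *
      cexp ((((p.1 : ℤ) - p.2 : ℤ) : ℂ) * I * θ) := fun p θ => by
    simp only [F, map_mul, map_pow, conj_ofReal, ← Complex.exp_conj, conj_I, mul_pow,
      ← Complex.exp_nat_mul, pow_add, map_natCast]
    have : cexp ((((p.1 : ℤ) - p.2 : ℤ) : ℂ) * I * θ) =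
        cexp (p.1 * (θ * I)) * cexp (p.2 * (θ * -I)) := by
      rw [← Complex.exp_add]; congr 1; push_cast; ring
    rw [this]; ring
  have hsum : ∀ θ : ℝ, ∑' p, F p θ = ((‖A (r * cexp (θ * I))‖ ^ 2 : ℝ) : ℂ) := fun θ =>
    (hasSum_mul_conj (h (r * cexp (θ * I)))).tsum_eq
  have hFc : ∀ p, Continuous (F p) := fun p => by
    simp only [F]
    exact (by fun_prop : Continuous fun θ : ℝ => a p.1 * (r * cexp (θ * I)) ^ p.1).mul
      (continuous_conj.comp (by fun_prop))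
  have hFn : ∀ p : ℕ × ℕ, ∫ θ in Set.Ioc 0 (2 * π), ‖F p θ‖ =
      2 * π * (‖a p.1‖ * r ^ p.1 * (‖a p.2‖ * r ^ p.2)) := fun p => by
    have : ∀ θ, ‖F p θ‖ = ‖a p.1‖ * r ^ p.1 * (‖a p.2‖ * r ^ p.2) := fun θ => by
      rw [← hn θ, ← hn θ]
      exact (norm_mul _ _).trans (by rw [RCLike.norm_conj])
    simp only [this]
    simp [Real.pi_pos.le]
  have hS : Summable fun p : ℕ × ℕ => ∫ θ in Set.Ioc 0 (2 * π), ‖F p θ‖ := by
    simp only [hFn]
    exact (hs.mul_of_nonneg hs (fun j => by positivity) fun j => by positivity).mul_left _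
  have hI := hasSum_integral_of_summable_integral_norm (μ := volume.restrict (Set.Ioc 0 (2 * π)))
    (F := F) (fun p => (hFc p).integrableOn_Ioc) hS
  have e1 : ∀ p : ℕ × ℕ, ∫ θ in Set.Ioc 0 (2 * π), F p θ =
      a p.1 * (starRingEnd ℂ) (a p.2) * r ^ (p.1 + p.2) * if p.1 = p.2 then 2 * π else 0 :=
    fun p => by
      rw [← intervalIntegral.integral_of_le hp, ← int_cexp, ← intervalIntegral.integral_const_mul]
      simp only [hF]
  have e2 : ∫ θ in Set.Ioc 0 (2 * π), ∑' p, F p θ =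
      ((∫ θ in (0 : ℝ)..2 * π, ‖A (r * cexp (θ * I))‖ ^ 2 : ℝ) : ℂ) := by
    rw [← intervalIntegral.integral_of_le hp, ← intervalIntegral.integral_ofReal]
    simp only [hsum]
  rw [e2, funext e1] at hI
  have hd := (Function.Injective.hasSum_iff (g := fun j : ℕ => (j, j))
    (fun i j e => (Prod.ext_iff.1 e).1) (fun p hp => by
      rw [if_neg (fun e => hp ⟨p.1, Prod.ext rfl e⟩), ofReal_zero, mul_zero])).2 hI
  rw [← Complex.hasSum_ofReal]
  refine hd.congr_fun ?_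
  intro j
  simp only [Function.comp_apply, if_true, Complex.mul_conj']
  push_cast; ring

end Pool.Agent.P.MP_2b44f0_gt.Gap
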