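import Pool.Agent.P.MP_2b44f0_gt.Gap.Am

/-! The Mehler kernel tested against a signed measure has nonnegative Taylor coefficients
(by the Segal-Bargmann transform). -/

namespace Pool.Agent.P.MP_2b44f0_gt.Gap

open MeasureTheory Filter Topology Complex
open scoped Real RealInnerProductSpace

variable {V : Type} [NormedAddCommGroup V] [InnerProductSpace ℝ V]

/-- the linear part of the exponent -/
noncomputable def c1 (ζ : V × V) (y : V) : ℂ := (⟪ζ.1, y⟫ : ℝ) + (⟪ζ.2, y⟫ : ℝ) * I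
/-- the quadratic part of the exponent -/
noncomputable def c2 (ζ : V × V) : ℂ :=
  (‖ζ.1‖ ^ 2 - ‖ζ.2‖ ^ 2 : ℝ) + (2 * ⟪ζ.1, ζ.2⟫ : ℝ) * I
/-- the generating function of the Hermite polynomials -/
noncomputable def ph (z : ℂ) (ζ : V × V) (y : V) : ℂ := cexp (z * c1 ζ y - z ^ 2 * c2 ζ / 2)
/-- the Gaussian weight -/
noncomputable def wt (ζ : V × V) : ℝ := Real.exp (-‖ζ.1‖ ^ 2 - ‖ζ.2‖ ^ 2)
/-- multiplication by a unit complex number -/
noncomputable def rot (θ : ℝ) (ζ : V × V) : V × V :=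
  (Real.cos θ • ζ.1 - Real.sin θ • ζ.2, Real.sin θ • ζ.1 + Real.cos θ • ζ.2)

theorem ph_rot (r θ : ℝ) (ζ : V × V) (y : V) :
    ph (r * cexp (θ * I)) ζ y = ph r (rot θ ζ) y := by
  unfold ph c1 c2 rot
  congr 1
  simp only [← real_inner_self_eq_norm_sq, inner_add_left, inner_add_right, inner_sub_left,
    inner_sub_right, real_inner_smul_left, real_inner_smul_right, real_inner_comm ζ.1 ζ.2,
    Complex.exp_mul_I, ← ofReal_cos, ← ofReal_sin]
  push_cast
  generalize Complex.cos θ = c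
  generalize Complex.sin θ = s
  linear_combination (r * s * (⟪ζ.2, y⟫ : ℝ) - r ^ 2 / 2 * (s ^ 2 * ((⟪ζ.1, ζ.1⟫ : ℝ) -
    (⟪ζ.2, ζ.2⟫ : ℝ)) + 4 * c * s * (⟪ζ.1, ζ.2⟫ : ℝ) + 2 * s ^ 2 * (⟪ζ.1, ζ.2⟫ : ℝ) * I)) * I_sq

theorem norm_rot (θ : ℝ) (ζ : V × V) :
    ‖(rot θ ζ).1‖ ^ 2 + ‖(rot θ ζ).2‖ ^ 2 = ‖ζ.1‖ ^ 2 + ‖ζ.2‖ ^ 2 := by
  simp only [rot, ← real_inner_self_eq_norm_sq, inner_add_left, inner_add_right, inner_sub_left,
    inner_sub_right, real_inner_smul_left, real_inner_smul_right, real_inner_comm ζ.1 ζ.2]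
  linear_combination (⟪ζ.1, ζ.1⟫ + ⟪ζ.2, ζ.2⟫) * Real.sin_sq_add_cos_sq θ

theorem wt_rot (θ : ℝ) (ζ : V × V) : wt (rot θ ζ) = wt ζ := by
  unfold wt
  congr 1
  linarith [norm_rot θ ζ]

theorem norm_c1_le (ζ : V × V) (y : V) : ‖c1 ζ y‖ ≤ (‖ζ.1‖ + ‖ζ.2‖) * ‖y‖ := by
  refine (norm_add_le _ _).trans ?_
  rw [norm_mul, norm_I, mul_one, norm_real, norm_real, add_mul]
  exact add_le_add (norm_inner_le_norm _ _) (norm_inner_le_norm _ _)

variable [FiniteDimensional ℝ V] [MeasurableSpace V] [BorelSpace V]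

theorem mp_rot (θ : ℝ) : MeasurePreserving (rot θ : V × V → V × V) volume volume := by
  let L : WithLp 2 (V × V) →ₗᵢ[ℝ] WithLp 2 (V × V) :=
    { toFun := fun z => WithLp.toLp 2 (rot θ z.ofLp)
      map_add' := fun a b => congrArg (WithLp.toLp 2) (show rot θ (a.ofLp + b.ofLp) =
          rot θ a.ofLp + rot θ b.ofLp by
        simp only [rot, Prod.fst_add, Prod.snd_add, smul_add, Prod.mk_add_mk]
        congr 1 <;> abel)
      map_smul' := fun c a => congrArg (WithLp.toLp 2) (show rot θ (c • a.ofLp) =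
          c • rot θ a.ofLp by
        simp only [rot, Prod.smul_fst, Prod.smul_snd, Prod.smul_mk, smul_add, smul_sub,
          smul_comm c])
      norm_map' := fun z => by
        rw [← sq_eq_sq₀ (norm_nonneg _) (norm_nonneg _), WithLp.prod_norm_sq_eq_of_L2,
          WithLp.prod_norm_sq_eq_of_L2]
        exact norm_rot θ z.ofLp }
  exact (WithLp.volume_preserving_ofLp V V).comp
    ((L.toLinearIsometryEquiv rfl).measurePreserving.comp (WithLp.volume_preserving_toLp V V))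

variable {μ : Measure V} {F : V → ℝ}

/-- the Segal-Bargmann transform -/
noncomputable def BA (μ : Measure V) (F : V → ℝ) (z : ℂ) (ζ : V × V) : ℂ :=
  ∫ y, F y * ph z ζ y ∂μ

omit [FiniteDimensional ℝ V] [BorelSpace V] in
theorem BA_rot (r θ : ℝ) (ζ : V × V) : BA μ F (r * cexp (θ * I)) ζ = BA μ F r (rot θ ζ) := by
  simp only [BA, ph_rot]

omit [FiniteDimensional ℝ V] in
theorem BA_diff (hc : Continuous F)
    (hF : ∀ c < (1 / 2 : ℝ), Integrable (fun y => F y * Real.exp (c * ‖y‖ ^ 2)) μ) (ζ : V × V) :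
    Differentiable ℂ fun z => BA μ F z ζ := by
  have e : (fun z => BA μ F z ζ) =
      fun z => cexp (-(z ^ 2 * c2 ζ / 2)) * ∫ y, F y * cexp (z * c1 ζ y) ∂μ := by
    funext z
    rw [BA, ← integral_const_mul]
    congr 1
    funext y
    rw [ph, sub_eq_add_neg, Complex.exp_add]
    ring
  rw [e]
  refine Differentiable.mul (by fun_prop) fun z₀ => ?_
  have h1 : Continuous (c1 ζ) := by unfold c1; fun_prop
  set L := (‖z₀‖ + 2) * (‖ζ.1‖ + ‖ζ.2‖) with hL
  have hb : Integrable (fun y => Real.exp (L ^ 2) * ‖F y * Real.exp (1 / 4 * ‖y‖ ^ 2)‖) μ :=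
    (hF _ (by norm_num)).norm.const_mul _
  have key : ∀ y (t : ℝ), t ≤ ‖z₀‖ + 2 → |F y| * Real.exp (t * ‖c1 ζ y‖) ≤
      Real.exp (L ^ 2) * ‖F y * Real.exp (1 / 4 * ‖y‖ ^ 2)‖ := fun y t ht => by
    rw [norm_mul, Real.norm_eq_abs, Real.norm_eq_abs, Real.abs_exp, mul_left_comm, ← Real.exp_add]
    refine mul_le_mul_of_nonneg_left (Real.exp_le_exp.2 ?_) (abs_nonneg _)
    have h2 : t * ‖c1 ζ y‖ ≤ L * ‖y‖ := by
      rw [hL, mul_assoc]
      exact mul_le_mul ht (norm_c1_le ζ y) (norm_nonneg _) (by positivity)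
    nlinarith [sq_nonneg (L - ‖y‖ / 2)]
  have k2 : ∀ y (z : ℂ), ‖cexp (z * c1 ζ y)‖ ≤ Real.exp (‖z‖ * ‖c1 ζ y‖) := fun y z =>
    (Complex.norm_exp_le_exp_norm _).trans (by rw [norm_mul])
  refine (hasDerivAt_integral_of_dominated_loc_of_deriv_le (Metric.ball_mem_nhds z₀ one_pos)
    (F' := fun z y => F y * (cexp (z * c1 ζ y) * c1 ζ y))
    (Eventually.of_forall fun z => Continuous.aestronglyMeasurable (by fun_prop))
    (hb.mono' (Continuous.aestronglyMeasurable (by fun_prop)) (ae_of_all _ fun y => ?_))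
    (Continuous.aestronglyMeasurable (by fun_prop)) (ae_of_all _ fun y z hz => ?_) hb
    (ae_of_all _ fun y z _ => ?_)).2.differentiableAt
  · rw [norm_mul, norm_real, Real.norm_eq_abs]
    exact (mul_le_mul_of_nonneg_left (k2 y z₀) (abs_nonneg _)).trans (key y _ (by linarith))
  · rw [norm_mul, norm_real, Real.norm_eq_abs, norm_mul]
    have h3 : ‖z‖ ≤ ‖z₀‖ + 1 := by
      have := norm_sub_norm_le z z₀
      rw [Metric.mem_ball, dist_eq_norm] at hz
      linarith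
    refine le_trans (mul_le_mul_of_nonneg_left ?_ (abs_nonneg _)) (key y (‖z‖ + 1) (by linarith))
    rw [add_mul, one_mul, Real.exp_add]
    exact mul_le_mul (k2 y z) (by linarith [Real.add_one_le_exp ‖c1 ζ y‖]) (norm_nonneg _)
      (Real.exp_pos _).le
  · simpa using (((hasDerivAt_id z).mul_const (c1 ζ y)).cexp).const_mul (F y : ℂ)

theorem BA_meas [SFinite μ] (hc : Continuous F) :
    StronglyMeasurable fun p : (V × V) × ℂ => BA μ F p.2 p.1 := by
  refine StronglyMeasurable.integral_prod_right (f := fun (p : (V × V) × ℂ) y =>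
    F y * ph p.2 p.1 y) (Continuous.stronglyMeasurable ?_)
  unfold Function.uncurry ph c1 c2
  fun_prop

/-- the Mehler kernel without its prefactor -/
noncomputable def meh (x : ℝ) (p : V × V) : ℝ :=
  Real.exp ((2 * x * ⟪p.1, p.2⟫ - x ^ 2 * (‖p.1‖ ^ 2 + ‖p.2‖ ^ 2)) / (2 * (1 - x ^ 2)))

omit [FiniteDimensional ℝ V] [MeasurableSpace V] [BorelSpace V] in
theorem wt_ph (r : ℝ) (ζ : V × V) (y w : V) :
    wt ζ * (ph r ζ y * (starRingEnd ℂ) (ph r ζ w)) =
      cexp (-((1 + r ^ 2 : ℝ) : ℂ) * ‖ζ.1‖ ^ 2 + r * (⟪y + w, ζ.1⟫ : ℝ)) *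
        cexp (-((1 - r ^ 2 : ℝ) : ℂ) * ‖ζ.2‖ ^ 2 + r * I * (⟪y - w, ζ.2⟫ : ℝ)) := by
  rw [real_inner_comm ζ.1, real_inner_comm ζ.2]
  simp only [wt, ph, c1, c2, ← Complex.exp_conj, ofReal_exp, ← Complex.exp_add, map_sub, map_mul,
    map_add, map_div₀, map_pow, conj_ofReal, conj_I, map_ofNat, inner_add_right, inner_sub_right]
  congr 1
  push_cast
  ring

theorem gauss_pair {r : ℝ} (hr : r ^ 2 < 1) (y w : V) :
    ∫ ζ : V × V, wt ζ * (ph r ζ y * (starRingEnd ℂ) (ph r ζ w)) =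
      ((π ^ Module.finrank ℝ V * (1 - (r ^ 2) ^ 2) ^ (-(Module.finrank ℝ V : ℝ) / 2) *
        meh (r ^ 2) (y, w) : ℝ) : ℂ) := by
  have h1 : 0 < 1 + r ^ 2 := by positivity
  have h2 : 0 < 1 - r ^ 2 := by linarith
  simp only [wt_ph]
  rw [Measure.volume_eq_prod, integral_prod_mul
    (fun a : V => cexp (-((1 + r ^ 2 : ℝ) : ℂ) * ‖a‖ ^ 2 + r * (⟪y + w, a⟫ : ℝ)))
    (fun b : V => cexp (-((1 - r ^ 2 : ℝ) : ℂ) * ‖b‖ ^ 2 + r * I * (⟪y - w, b⟫ : ℝ))),
    GaussianFourier.integral_cexp_neg_mul_sq_norm_add (by exact_mod_cast h1),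
    GaussianFourier.integral_cexp_neg_mul_sq_norm_add (by exact_mod_cast h2)]
  have e1 : ∀ b : ℝ, 0 < b → ((π : ℂ) / (b : ℂ)) ^ ((Module.finrank ℝ V : ℂ) / 2) =
      (((π / b) ^ ((Module.finrank ℝ V : ℝ) / 2) : ℝ) : ℂ) := fun b hb => by
    rw [Complex.ofReal_cpow (by positivity)]
    push_cast; rfl
  have e2 : (π / (1 + r ^ 2)) ^ ((Module.finrank ℝ V : ℝ) / 2) *
      (π / (1 - r ^ 2)) ^ ((Module.finrank ℝ V : ℝ) / 2) =
      π ^ Module.finrank ℝ V * (1 - (r ^ 2) ^ 2) ^ (-(Module.finrank ℝ V : ℝ) / 2) := by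
    have h3 : 1 - (r ^ 2) ^ 2 = (1 + r ^ 2) * (1 - r ^ 2) := by ring
    rw [← Real.mul_rpow (by positivity) (by positivity), div_mul_div_comm, ← h3,
      Real.div_rpow (by positivity) (by rw [h3]; positivity), ← sq, ← Real.rpow_natCast π 2,
      ← Real.rpow_mul Real.pi_pos.le, neg_div, Real.rpow_neg (by rw [h3]; positivity),
      div_eq_mul_inv, ← Real.rpow_natCast π]
    congr 2
    push_cast; ring
  rw [e1 _ h1, e1 _ h2, mul_mul_mul_comm, ← ofReal_mul, e2, ← Complex.exp_add, ofReal_mul _ (meh _ _),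
    meh, ofReal_exp]
  congr 2
  have e3 : ((r : ℂ) * I) ^ 2 = -r ^ 2 := by rw [mul_pow, I_sq]; ring
  have e4 : r ^ 2 * ‖y + w‖ ^ 2 / (4 * (1 + r ^ 2)) + -r ^ 2 * ‖y - w‖ ^ 2 / (4 * (1 - r ^ 2)) =
      (2 * r ^ 2 * ⟪y, w⟫ - (r ^ 2) ^ 2 * (‖y‖ ^ 2 + ‖w‖ ^ 2)) / (2 * (1 - (r ^ 2) ^ 2)) := by
    have h3 : 1 - (r ^ 2) ^ 2 = (1 + r ^ 2) * (1 - r ^ 2) := by ring
    rw [norm_add_sq_real, norm_sub_sq_real, h3]
    field_simp
    ring
  rw [e3, ← e4]
  push_cast; rfl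

theorem int_gauss {c : ℝ} (hc : 0 < c) : Integrable fun a : V => Real.exp (-c * ‖a‖ ^ 2) := by
  have := (GaussianFourier.integrable_cexp_neg_mul_sq_norm_add (V := V) (b := c)
    (by exact_mod_cast hc) 0 0).norm
  refine this.congr (ae_of_all _ fun a => ?_)
  simp only [zero_mul, add_zero, Complex.norm_exp]
  congr 1
  rw [← ofReal_neg, ← ofReal_pow, ← ofReal_mul, ofReal_re]

theorem barg [SFinite μ] (hc : Continuous F)
    (hF : ∀ c < (1 / 2 : ℝ), Integrable (fun y => F y * Real.exp (c * ‖y‖ ^ 2)) μ) {r : ℝ}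
    (hr : r ^ 2 < 1) : Integrable (fun ζ : V × V => wt ζ * ‖BA μ F r ζ‖ ^ 2) ∧
    ∫ ζ : V × V, wt ζ * ‖BA μ F r ζ‖ ^ 2 = π ^ Module.finrank ℝ V *
      ((1 - (r ^ 2) ^ 2) ^ (-(Module.finrank ℝ V : ℝ) / 2) *
        ∫ p, F p.1 * F p.2 * meh (r ^ 2) p ∂μ.prod μ) := by
  set x := r ^ 2 with hx
  have hx0 : 0 ≤ x := sq_nonneg r
  let Φ : V × V → V × V → ℂ := fun ζ p =>
    (F p.1 * F p.2 : ℝ) * (wt ζ * (ph r ζ p.1 * (starRingEnd ℂ) (ph r ζ p.2)))
  have hΦ : ∀ ζ, ∫ p, Φ ζ p ∂μ.prod μ = ((wt ζ * ‖BA μ F r ζ‖ ^ 2 : ℝ) : ℂ) := fun ζ => by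
    rw [ofReal_mul, ofReal_pow, ← Complex.mul_conj', BA, ← integral_conj, ← integral_prod_mul,
      ← integral_const_mul]
    congr 1
    funext p
    simp only [Φ, map_mul, conj_ofReal]
    push_cast; ring
  have hI : Integrable (Function.uncurry Φ) ((volume : Measure (V × V)).prod (μ.prod μ)) := by
    have c0 : x / (1 + x) < 1 / 2 := by rw [div_lt_iff₀ (by positivity)]; linarith
    have i1 := (int_gauss (V := V) (c := (1 + x) / 2) (by positivity)).mul_prod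
      (int_gauss (V := V) (c := 1 - x) (by linarith))
    have i2 := (hF _ c0).norm.mul_prod (hF _ c0).norm
    refine (i1.mul_prod i2).mono' (Continuous.aestronglyMeasurable ?_) (ae_of_all _ fun z => ?_)
    · have : Continuous fun z : (V × V) × V × V => ph r z.1 z.2.2 := by
        unfold ph c1 c2; fun_prop
      have := continuous_conj.comp this
      unfold Function.uncurry Φ wt
      refine Continuous.mul (by fun_prop) (Continuous.mul (by fun_prop) (Continuous.mul ?_ this))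
      unfold ph c1 c2; fun_prop
    · obtain ⟨ζ, y, w⟩ := z
      simp only [Function.uncurry_apply_pair, Φ, wt_ph, norm_mul, Complex.norm_exp, norm_real,
        Real.norm_eq_abs, Real.abs_exp]
      have e1 : (-((1 + r ^ 2 : ℝ) : ℂ) * ‖ζ.1‖ ^ 2 + r * (⟪y + w, ζ.1⟫ : ℝ)).re =
          -(1 + x) * ‖ζ.1‖ ^ 2 + r * ⟪y + w, ζ.1⟫ := by
        rw [← ofReal_neg, ← ofReal_pow, ← ofReal_mul, ← ofReal_mul, ← ofReal_add, ofReal_re]
      have e2 : (-((1 - r ^ 2 : ℝ) : ℂ) * ‖ζ.2‖ ^ 2 + r * I * (⟪y - w, ζ.2⟫ : ℝ)).re =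
          -(1 - x) * ‖ζ.2‖ ^ 2 := by
        rw [← ofReal_neg, ← ofReal_pow, ← ofReal_mul, add_re, ofReal_re]
        simp [hx]
      rw [e1, e2]
      have k : -(1 + x) * ‖ζ.1‖ ^ 2 + r * ⟪y + w, ζ.1⟫ ≤
          -((1 + x) / 2) * ‖ζ.1‖ ^ 2 + x / (1 + x) * ‖y‖ ^ 2 + x / (1 + x) * ‖w‖ ^ 2 := by
        have h1 : r * ⟪y + w, ζ.1⟫ ≤ |r| * (‖y‖ + ‖w‖) * ‖ζ.1‖ := by
          refine (le_abs_self _).trans ?_
          rw [abs_mul, mul_assoc]
          refine mul_le_mul_of_nonneg_left ((abs_real_inner_le_norm _ _).trans ?_) (abs_nonneg _)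
          exact mul_le_mul_of_nonneg_right (norm_add_le _ _) (norm_nonneg _)
        obtain ⟨u, hu⟩ : ∃ u, |r| = u * (1 + x) := ⟨|r| / (1 + x), by field_simp⟩
        have h2 : x / (1 + x) = u ^ 2 * (1 + x) := by
          rw [div_eq_iff (by positivity), mul_assoc, ← sq, ← mul_pow, ← hu, sq_abs]
        rw [h2]
        rw [hu] at h1
        have h3 : 0 < 1 + x := by positivity
        nlinarith [mul_nonneg h3.le (sq_nonneg (‖ζ.1‖ - u * (‖y‖ + ‖w‖))),
          mul_nonneg h3.le (sq_nonneg (u * (‖y‖ - ‖w‖)))]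
      have := Real.exp_le_exp.2 k
      rw [Real.exp_add, Real.exp_add _ (x / (1 + x) * ‖w‖ ^ 2), Real.exp_add] at this
      rw [Real.exp_add]
      have h4 := mul_le_mul_of_nonneg_left this (show 0 ≤ |F y| * |F w| *
        Real.exp (-(1 - x) * ‖ζ.2‖ ^ 2) by positivity)
      linarith
  have h1 := hI.integral_prod_left
  have h2 := integral_integral_swap hI
  simp only [Function.uncurry_apply_pair, hΦ] at h1 h2
  refine ⟨by simpa only [RCLike.re_to_complex, ofReal_re] using h1.re, ?_⟩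
  simp only [Φ, integral_const_mul, gauss_pair hr, ← ofReal_mul, integral_complex_ofReal,
    ofReal_inj] at h2
  rw [h2, ← integral_const_mul, ← integral_const_mul]
  congr 1
  funext p
  ring

theorem am_mehler [SFinite μ] (hc : Continuous F)
    (hF : ∀ c < (1 / 2 : ℝ), Integrable (fun y => F y * Real.exp (c * ‖y‖ ^ 2)) μ) :
    AM fun x => (1 - x ^ 2) ^ (-(Module.finrank ℝ V : ℝ) / 2) *
      ∫ p, F p.1 * F p.2 * meh x p ∂μ.prod μ := by
  let a : V × V → ℕ → ℂ := fun ζ j => cauchyPowerSeries (fun z => BA μ F z ζ) 0 1 j fun _ => 1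
  have ha : ∀ ζ z, HasSum (fun j => a ζ j * z ^ j) (BA μ F z ζ) := fun ζ z => by
    have := ((BA_diff hc hF ζ).hasFPowerSeriesOnBall 0 (R := 1) one_pos).hasSum (y := z) (by simp)
    simp only [FormalMultilinearSeries.apply_eq_pow_smul_coeff, zero_add, smul_eq_mul] at this
    exact this.congr_fun fun j => mul_comm _ _
  have hwt : Continuous (wt : V × V → ℝ) := by unfold wt; fun_prop
  have hw0 : ∀ ζ : V × V, 0 ≤ wt ζ := fun ζ => (Real.exp_pos _).le
  have hB : ∀ r : ℝ, Measurable fun p : (V × V) × ℝ => BA μ F (r * cexp (p.2 * I)) p.1 := fun r =>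
    (BA_meas hc).measurable.comp (f := fun p : (V × V) × ℝ => (p.1, r * cexp (p.2 * I)))
      (Continuous.measurable (by fun_prop))
  have ham : ∀ j, Measurable fun ζ => a ζ j := fun j => by
    simp only [a, cauchyPowerSeries_apply, circleIntegral,
      intervalIntegral.integral_of_le Real.two_pi_pos.le]
    refine Measurable.const_mul (StronglyMeasurable.integral_prod_right ?_).measurable _
    refine Measurable.stronglyMeasurable ?_
    have := hB 1
    simp only [deriv_circleMap, circleMap, zero_add, sub_zero, smul_eq_mul, Function.uncurry_def]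
    fun_prop
  let Q : ℕ → ENNReal := fun j => ∫⁻ ζ, ENNReal.ofReal (wt ζ * ‖a ζ j‖ ^ 2)
  have key : ∀ r : ℝ, 0 ≤ r → r ^ 2 < 1 → ∑' j, Q j * ENNReal.ofReal ((r ^ 2) ^ j) =
      ENNReal.ofReal (∫ ζ : V × V, wt ζ * ‖BA μ F r ζ‖ ^ 2) := fun r h0 h1 => by
    have hG : Measurable fun p : (V × V) × ℝ =>
        ENNReal.ofReal (wt p.1 * ‖BA μ F (r * cexp (p.2 * I)) p.1‖ ^ 2) := by
      have := hB r
      have := hwt.measurable
      fun_prop
    have s1 : ∀ θ : ℝ, ∫⁻ ζ, ENNReal.ofReal (wt ζ * ‖BA μ F (r * cexp (θ * I)) ζ‖ ^ 2) =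
        ENNReal.ofReal (∫ ζ : V × V, wt ζ * ‖BA μ F r ζ‖ ^ 2) := fun θ => by
      rw [ofReal_integral_eq_lintegral_ofReal (barg hc hF h1).1
        (ae_of_all _ fun ζ => mul_nonneg (hw0 ζ) (sq_nonneg _)),
        ← (mp_rot θ).lintegral_comp
          (f := fun ζ => ENNReal.ofReal (wt ζ * ‖BA μ F r ζ‖ ^ 2)) (by
          simpa [Function.comp_def] using hG.comp (measurable_prodMk_right (y := (0 : ℝ))))]
      simp only [BA_rot, wt_rot]
    have s2 : ∀ ζ, ∫⁻ θ in Set.Ioc 0 (2 * π),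
        ENNReal.ofReal (wt ζ * ‖BA μ F (r * cexp (θ * I)) ζ‖ ^ 2) = ENNReal.ofReal (2 * π) *
        ∑' j, ENNReal.ofReal (wt ζ * ‖a ζ j‖ ^ 2) * ENNReal.ofReal ((r ^ 2) ^ j) := fun ζ => by
      have hp := (parseval (ha ζ) h0).mul_left (wt ζ)
      have hcn : Continuous fun θ : ℝ => wt ζ * ‖BA μ F (r * cexp (θ * I)) ζ‖ ^ 2 := by
        have := (BA_diff hc hF ζ).continuous
        fun_prop
      rw [← ofReal_integral_eq_lintegral_ofReal hcn.integrableOn_Ioc
        (ae_of_all _ fun θ => mul_nonneg (hw0 ζ) (sq_nonneg _)),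
        ← intervalIntegral.integral_of_le Real.two_pi_pos.le, intervalIntegral.integral_const_mul,
        ← hp.tsum_eq, ENNReal.ofReal_tsum_of_nonneg (fun j => by have := hw0 ζ; positivity)
        hp.summable, ← ENNReal.tsum_mul_left]
      refine tsum_congr fun j => ?_
      rw [← ENNReal.ofReal_mul (by have := hw0 ζ; positivity), ← ENNReal.ofReal_mul (by positivity)]
      congr 1
      ring
    have s3 := lintegral_lintegral_swap (μ := (volume : Measure (V × V)))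
      (ν := volume.restrict (Set.Ioc 0 (2 * π))) (f := fun ζ (θ : ℝ) =>
        ENNReal.ofReal (wt ζ * ‖BA μ F (r * cexp (θ * I)) ζ‖ ^ 2)) hG.aemeasurable
    have hm : ∀ j, Measurable fun ζ => ENNReal.ofReal (wt ζ * ‖a ζ j‖ ^ 2) := fun j => by
      have := ham j
      have := hwt.measurable
      fun_prop
    simp only [s1, s2, lintegral_const, Measure.restrict_apply_univ, Real.volume_Ioc,
      sub_zero] at s3
    rw [lintegral_const_mul' _ _ ENNReal.ofReal_ne_top,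
      lintegral_tsum fun j => ((hm j).mul_const _).aemeasurable, mul_comm] at s3
    simp only [lintegral_mul_const _ (hm _)] at s3
    exact (ENNReal.mul_left_inj (by simp [Real.pi_pos]) ENNReal.ofReal_ne_top).1 s3
  have hQ : ∀ j, Q j ≠ ⊤ := fun j h => by
    have h1 := ENNReal.le_tsum (f := fun j => Q j * ENNReal.ofReal (((1 / 2 : ℝ) ^ 2) ^ j)) j
    rw [key (1 / 2) (by norm_num) (by norm_num), h, ENNReal.top_mul (by simp)] at h1
    exact ENNReal.ofReal_ne_top (top_le_iff.1 h1)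
  have hA : AM fun x => ∫ ζ : V × V, wt ζ * ‖BA μ F (√x : ℝ) ζ‖ ^ 2 := by
    refine ⟨fun j => (Q j).toReal, fun j => ENNReal.toReal_nonneg, fun x h0 h1 => ?_⟩
    have h2 := key (√x) (Real.sqrt_nonneg x) (by rwa [Real.sq_sqrt h0])
    have h3 := ENNReal.hasSum_toReal (f := fun j => Q j * ENNReal.ofReal ((√x ^ 2) ^ j))
      (h2 ▸ ENNReal.ofReal_ne_top)
    rw [← ENNReal.tsum_toReal_eq fun j => ENNReal.mul_ne_top (hQ j) ENNReal.ofReal_ne_top, h2,
      ENNReal.toReal_ofReal (integral_nonneg fun ζ => mul_nonneg (hw0 ζ) (sq_nonneg _))] at h3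
    simpa only [ENNReal.toReal_mul, Real.sq_sqrt h0, ENNReal.toReal_ofReal (pow_nonneg h0 _)]
      using h3
  refine (hA.const_mul (c := (π ^ Module.finrank ℝ V)⁻¹) (by positivity)).congr fun x h0 h1 => ?_
  rw [(barg hc hF (by rwa [Real.sq_sqrt h0])).2, Real.sq_sqrt h0, inv_mul_cancel_left₀ (by positivity)]

end Pool.Agent.P.MP_2b44f0_gt.Gap
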