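import Pool.Agent.P.MP_2b44f0_gt.Gap.Row

/-! Double integrals against the kernel. -/

namespace Pool.Agent.P.MP_2b44f0_gt.Gap

open MeasureTheory Metric Filter Topology Set
open scoped RealInnerProductSpace

variable {k : ℕ} {V : Measure (E k × Gr k)} [SFinite V] {x : ℝ}

/-- pairs of points -/
abbrev Om2 (k : ℕ) : Type := (E k × Gr k) × (E k × Gr k)

/-- the double integral against the kernel -/
noncomputable def II (V : Measure (E k × Gr k)) (x : ℝ) (g : Om2 k → ℝ) : ℝ :=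
  ∫ z, g z * kx x z.1.1 z.2.1 ∂V.prod V

/-- the Gaussian integral -/
noncomputable def GG (V : Measure (E k × Gr k)) (g : E k × Gr k → ℝ) : ℝ :=
  ∫ p, g p * kx 0 0 p.1 ∂V

/-- the size of a pair -/
noncomputable abbrev s2 (k : ℕ) : Sz (Om2 k) := sz (fun z => z.1.1) fun z => z.2.1
/-- the size of a point -/
noncomputable abbrev s1 (k : ℕ) : Sz (E k × Gr k) := sz (fun _ => (0 : E k)) Prod.fst

omit [SFinite V] in
theorem Ctx.gi2 (h : Ctx V) : GI (V.prod V) (fun z : Om2 k => z.1.1) fun z => z.2.1 :=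
  ⟨by fun_prop, by fun_prop, fun c hc => by
    simpa only [mul_add, Real.exp_add] using (h.int' hc).mul_prod (h.int' hc)⟩

@[fun_prop] theorem pg_y : PG (s2 k) fun z => z.1.1 :=
  PG.of_sq (by fun_prop) fun _ => le_add_of_nonneg_right (sq_nonneg _)
@[fun_prop] theorem pg_w : PG (s2 k) fun z => z.2.1 :=
  PG.of_sq (by fun_prop) fun _ => le_add_of_nonneg_left (sq_nonneg _)
@[fun_prop] theorem pg_1 : PG (s1 k) fun p => p.1 :=
  PG.of_sq (by fun_prop) fun _ => le_add_of_nonneg_left (sq_nonneg _)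
@[fun_prop] theorem pg_ell (x : ℝ) : PG (s2 k) fun z => ell x z.1.1 z.2.1 := by
  unfold ell
  fun_prop
@[fun_prop] theorem pg_DD (x : ℝ) : PG (s2 k) fun z => DD x z.1.1 z.2 := by
  unfold DD
  fun_prop

theorem kx_00 (w : E k) : kx 0 0 w = Real.exp (-‖w‖ ^ 2 / 2) := by simp [kx_zero]

omit [SFinite V] in
theorem GG_one : GG V (fun _ => 1) = ZZ V := by
  simp only [GG, one_mul, kx_00]
  exact int_fst (f := fun w => Real.exp (-‖w‖ ^ 2 / 2)) (by fun_prop)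

variable {g : Om2 k → ℝ}

theorem II_swap (g : Om2 k → ℝ) : II V x g = II V x fun z => g z.swap := by
  rw [II, ← integral_prod_swap, II]
  congr 1
  funext z
  rw [kx_comm]
  rfl

theorem Ctx.zero_rows (h : Ctx V) (hx : x ^ 2 < 1) (hg : PG (s2 k) g)
    (z : ∀ p, ∫ q, g (p, q) * kx x p.1 q.1 ∂V = 0) : II V x g = 0 := by
  rw [II, integral_prod _ (h.gi2.ker hg hx)]
  simp only [z, integral_zero]

theorem Ctx.II_row (h : Ctx V) (hx : x ^ 2 < 1) {c : E k × Gr k → ℝ}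
    (hg : PG (s2 k) fun z => c z.1) : Integrable (fun p => c p * row V p.1 x) V ∧
      II V x (fun z => c z.1) = ∫ p, c p * row V p.1 x ∂V := by
  have hi := h.gi2.ker hg hx
  have h1 := hi.integral_prod_left
  rw [II, integral_prod _ hi]
  simp only [integral_const_mul] at h1 ⊢
  exact ⟨h1, rfl⟩

theorem Ctx.II_le (h : Ctx V) (hx : x ∈ Ico (0 : ℝ) 1) {c : E k × Gr k → ℝ}
    (hg : PG (s2 k) fun z => c z.1) (h1 : PG (s1 k) c) (h0 : ∀ p, 0 ≤ c p) :
    II V x (fun z => c z.1) ≤ ZZ V * GG V c := by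
  obtain ⟨i, e⟩ := h.II_row (sq_lt_one hx) hg
  rw [e, GG, ← integral_const_mul]
  refine integral_mono i (((h.gi 0).ker h1 (by norm_num)).const_mul _) fun p => ?_
  simp only [kx_00, mul_left_comm (ZZ V)]
  exact mul_le_mul_of_nonneg_left (h.row_le _ hx) (h0 p)

theorem Ctx.le_II (h : Ctx V) (hd : DensityGeOne V.fst) (hx : x ∈ Ico (0 : ℝ) 1)
    {c : E k × Gr k → ℝ} (hg : PG (s2 k) fun z => c z.1) (h1 : PG (s1 k) c) (h0 : ∀ p, 0 ≤ c p) :
    c0 k * GG V c ≤ II V x fun z => c z.1 := by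
  obtain ⟨i, e⟩ := h.II_row (sq_lt_one hx) hg
  rw [e, GG, ← integral_const_mul]
  refine integral_mono_ae (((h.gi 0).ker h1 (by norm_num)).const_mul _) i ?_
  filter_upwards [ae_of_ae_map measurable_fst.aemeasurable hd] with p hp
  simp only [kx_00, mul_left_comm (c0 k)]
  exact mul_le_mul_of_nonneg_left (h.le_row hp hx) (h0 p)

theorem Ctx.II_zero (h : Ctx V) (hg : PG (s2 k) g) :
    II V 0 g = GG V fun p => GG V fun q => g (p, q) := by
  rw [II, integral_prod _ (h.gi2.ker hg (by norm_num))]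
  simp only [GG, kx_00]
  simp only [kx_zero, ← integral_mul_const]
  congr 1
  funext p
  congr 1
  funext q
  ring

omit [SFinite V] in
theorem Ctx.II_cont (h : Ctx V) (hg : PG (s2 k) g) (hx : x ^ 2 < 1) :
    ContinuousAt (fun x => II V x g) x := (h.gi2.deriv hg hx).continuousAt

theorem Ctx.am (h : Ctx V) {f : E k → ℝ} (hf : PG ⟨fun w => ‖w‖ ^ 2⟩ f) :
    AM fun x => II V x (fun z => f z.1.1 * f z.2.1) / √(1 - x ^ 2) := by
  have hc := hf.1
  have := am_mehler (μ := V.fst) (F := fun w => f w * Real.exp (-‖w‖ ^ 2 / 2)) (by fun_prop)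
    fun c hc => by
      refine (hf.integrable (by fun_prop) (fun _ => by positivity) h.int
        (c := 1 / 2 - c) (by linarith)).congr (ae_of_all _ fun w => ?_)
      simp only [mul_assoc, ← Real.exp_add]
      congr 2
      ring
  refine this.congr fun x h0 h1 => ?_
  have hx : 0 < 1 - x ^ 2 := by nlinarith
  rw [Measure.fst, Measure.map_prod_map _ _ measurable_fst measurable_fst,
    integral_map (by fun_prop) (Continuous.aestronglyMeasurable (by unfold meh; fun_prop)),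
    ← integral_const_mul, II, ← integral_div]
  congr 1
  funext z
  have e1 : (1 - x ^ 2) ^ (-(Module.finrank ℝ (E k) : ℝ) / 2) =
      Real.exp (-(k / 2 * Real.log (1 - x ^ 2))) / √(1 - x ^ 2) := by
    rw [Real.rpow_def_of_pos hx, ← Real.exp_log (Real.sqrt_pos.2 hx), ← Real.exp_sub,
      Real.log_sqrt hx.le]
    congr 1
    simp
    ring
  have e2 : Real.exp (-‖z.1.1‖ ^ 2 / 2) * Real.exp (-‖z.2.1‖ ^ 2 / 2) * meh x (z.1.1, z.2.1) *
      Real.exp (-(k / 2 * Real.log (1 - x ^ 2))) = kx x z.1.1 z.2.1 := by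
    simp only [meh, kx, ← Real.exp_add]
    congr 1
    field_simp
    ring
  rw [e1, ← e2]
  simp only [Prod.map]
  ring

/-- the defect -/
noncomputable def de (x : ℝ) (z : Om2 k) : ℝ := x * be z.2.2 z.1.1 z.1.1 / (1 - x ^ 2) ^ 2

@[fun_prop] theorem pg_de (x : ℝ) : PG (s2 k) fun z => de x z := by
  unfold de
  fun_prop

theorem de_nonneg (hx : 0 ≤ x) (z : Om2 k) : 0 ≤ de x z :=
  div_nonneg (mul_nonneg hx (be_nonneg _ _)) (sq_nonneg _)

omit [SFinite V] in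
theorem Ctx.deriv2 (h : Ctx V) (hx : x ^ 2 < 1) (hg : PG (s2 k) g) :
    HasDerivAt (fun x => II V x g)
      (II V x (fun z => g z * DD x z.1.1 z.2) - II V x fun z => g z * de x z) x := by
  refine (h.gi2.deriv hg hx).congr_deriv ?_
  rw [h.gi2.lin2 hx 1 (-1) (g1 := fun z => g z * DD x z.1.1 z.2) (g2 := fun z => g z * de x z)
    (ae_of_all _ fun z => by unfold DD de; ring) (by fun_prop) (by fun_prop), II, II]
  ring

theorem Ctx.deriv_row (h : Ctx V) (hx : x ^ 2 < 1) {c : E k × Gr k → ℝ}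
    (hg : PG (s2 k) fun z => c z.1) :
    HasDerivAt (fun x => II V x fun z => c z.1) (-II V x fun z => c z.1 * de x z) x := by
  refine (h.deriv2 hx hg).congr_deriv ?_
  rw [h.zero_rows hx (hg.mul (pg_DD x)) fun p => ?_, zero_sub]
  simp only [mul_assoc, integral_const_mul, h.e1 hx, mul_zero]

variable {ω : E k}

theorem Ctx.id2 (h : Ctx V) (hx : x ^ 2 < 1) (ω : E k) :
    x * II V x (fun z => ⟪ω, z.1.1⟫ * ⟪ω, z.2.1⟫ * DD x z.1.1 z.2) =
      II V x fun z => ⟪ω, z.1.1⟫ * ⟪ω, z.2.1⟫ := by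
  have := h.zero_rows hx (g := fun z => ⟪ω, z.1.1⟫ *
    (x * ⟪ω, z.2.1⟫ * DD x z.1.1 z.2 - ⟪ω, z.2.1⟫)) (by fun_prop) fun p => by
      simp only [mul_assoc ⟪ω, p.1⟫, integral_const_mul, h.e2 hx, mul_zero]
  rw [II, h.gi2.lin2 hx x (-1) (g1 := fun z => ⟪ω, z.1.1⟫ * ⟪ω, z.2.1⟫ * DD x z.1.1 z.2)
    (g2 := fun z => ⟪ω, z.1.1⟫ * ⟪ω, z.2.1⟫) (ae_of_all _ fun z => by ring) (by fun_prop)
    (by fun_prop)] at this
  unfold II
  linarith

theorem Ctx.id3 (h : Ctx V) (hx : x ^ 2 < 1) (ω : E k) :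
    x * II V x (fun z => ⟪ω, z.2.1⟫ ^ 2 * DD x z.1.1 z.2) =
      2 * (II V x (fun z => ⟪ω, z.2.1⟫ ^ 2) - II V x fun z => ⟪ω, pr z.2.2 ω⟫) := by
  have := h.zero_rows hx (g := fun z => x * ⟪ω, z.2.1⟫ ^ 2 * DD x z.1.1 z.2 -
    2 * (⟪ω, z.2.1⟫ ^ 2 - ⟪ω, pr z.2.2 ω⟫)) (by fun_prop) fun p => h.e3 hx p.1 ω
  rw [II, h.gi2.lin3 hx x (-2) 2 (g1 := fun z => ⟪ω, z.2.1⟫ ^ 2 * DD x z.1.1 z.2)
    (g2 := fun z => ⟪ω, z.2.1⟫ ^ 2) (g3 := fun z => ⟪ω, pr z.2.2 ω⟫)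
    (ae_of_all _ fun z => by ring) (by fun_prop) (by fun_prop) (by fun_prop)] at this
  unfold II
  linarith

theorem Ctx.id4 (h : Ctx V) (hx : x ^ 2 < 1) (ω : E k) :
    II V x (fun z => ⟪ω, z.1.1⟫ * ⟪ω, z.2.1⟫) =
      x * II V x fun z => ⟪ω, z.1.1⟫ * ⟪z.1.1, pr z.2.2 ω⟫ := by
  have := h.zero_rows hx (g := fun z => ⟪ω, z.1.1⟫ * (⟪ω, z.2.1⟫ - x * ⟪z.1.1, pr z.2.2 ω⟫))
    (by fun_prop) fun p => by
      simp only [mul_assoc ⟪ω, p.1⟫, integral_const_mul, h.e4 hx, mul_zero]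
  rw [II, h.gi2.lin2 hx 1 (-x) (g1 := fun z => ⟪ω, z.1.1⟫ * ⟪ω, z.2.1⟫)
    (g2 := fun z => ⟪ω, z.1.1⟫ * ⟪z.1.1, pr z.2.2 ω⟫) (ae_of_all _ fun z => by ring) (by fun_prop)
    (by fun_prop)] at this
  unfold II
  linarith

end Pool.Agent.P.MP_2b44f0_gt.Gap
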