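import Mathlib

/-! Varifolds of codimension one, stationarity, cones and densities. -/

namespace Pool.Agent.P.MP_2b44f0_gt.Gap

open MeasureTheory Metric Filter Topology
open scoped ENNReal

/-- the Euclidean space `R^(k+1)` -/
abbrev E (k : ℕ) : Type := EuclideanSpace ℝ (Fin (k + 1))

/-- the Grassmannian of `k`-dimensional linear subspaces of `R^(k+1)`; a subspace is recorded by
the orthogonal projection onto it -/
abbrev Gr (k : ℕ) : Type :=
  {P : E k →L[ℝ] E k // IsStarProjection P ∧ Module.finrank ℝ (LinearMap.range P.toLinearMap) = k}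

variable {k : ℕ}

/-- the divergence of the vector field `X` at `x` along the subspace `S` -/
noncomputable def divS (S : Gr k) (X : E k → E k) (x : E k) : ℝ :=
  LinearMap.trace ℝ (E k) (S.1 ∘L fderiv ℝ X x).toLinearMap

/-- the first variation of the varifold `V` vanishes -/
def Stationary (V : Measure (E k × Gr k)) : Prop :=
  ∀ X : E k → E k, ContDiff ℝ 1 X → HasCompactSupport X → ∫ p, divS p.2 X p.1 ∂V = 0

/-- the push-forward of the varifold `V` under every dilation is `V` -/
def IsCone (V : Measure (E k × Gr k)) : Prop :=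
  ∀ t : ℝ, 0 < t → ENNReal.ofReal (t ^ k) • V.map (fun p => (t • p.1, p.2)) = V

/-- the density ratio `μ(B_r(x)) / (ω_k r^k)` -/
noncomputable def ratio (μ : Measure (E k)) (x : E k) (r : ℝ) : ℝ≥0∞ :=
  μ (ball x r) / (volume (ball (0 : EuclideanSpace ℝ (Fin k)) 1) * ENNReal.ofReal (r ^ k))

/-- the lower `k`-dimensional density of `μ` is at least one almost everywhere -/
def DensityGeOne (μ : Measure (E k)) : Prop :=
  ∀ᵐ x ∂μ, 1 ≤ liminf (ratio μ x) (𝓝[>] 0)

end Pool.Agent.P.MP_2b44f0_gt.Gap
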