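import Pool.Agent.P.MP_2b44f0_gt.Gap.Dbl

/-! The coordinate functions are almost eigenfunctions of the kernel. -/

namespace Pool.Agent.P.MP_2b44f0_gt.Gap

open MeasureTheory Metric Filter Topology Set
open scoped RealInnerProductSpace

variable {k : ℕ} {V : Measure (E k × Gr k)} [SFinite V] {x : ℝ} {ω : E k}

/-- the second moment -/
noncomputable def ee (V : Measure (E k × Gr k)) (ω : E k) : ℝ := GG V fun p => ⟪ω, p.1⟫ ^ 2
/-- the diagonal term -/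
noncomputable def RR (V : Measure (E k × Gr k)) (ω : E k) (x : ℝ) : ℝ :=
  II V x fun z => ⟪ω, z.1.1⟫ ^ 2
/-- the correlation -/
noncomputable def BB (V : Measure (E k × Gr k)) (ω : E k) (x : ℝ) : ℝ :=
  II V x fun z => ⟪ω, z.1.1⟫ * ⟪ω, z.2.1⟫
/-- the normal term -/
noncomputable def KK (V : Measure (E k × Gr k)) (x : ℝ) : ℝ :=
  II V x fun z => be z.2.2 z.1.1 z.1.1

theorem pr_nonneg (S : Gr k) (ω : E k) : 0 ≤ ⟪ω, pr S ω⟫ := by
  rw [pr, ← S.idem, ← S.sym]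
  exact real_inner_self_nonneg

theorem Ctx.RR_le (h : Ctx V) (hx : x ∈ Ico (0 : ℝ) 1) : RR V ω x ≤ ZZ V * ee V ω :=
  h.II_le hx (c := fun p => ⟪ω, p.1⟫ ^ 2) (by fun_prop) (by fun_prop) fun _ => sq_nonneg _

theorem Ctx.le_RR (h : Ctx V) (hd : DensityGeOne V.fst) (hx : x ∈ Ico (0 : ℝ) 1) :
    c0 k * ee V ω ≤ RR V ω x :=
  h.le_II hd hx (c := fun p => ⟪ω, p.1⟫ ^ 2) (by fun_prop) (by fun_prop) fun _ => sq_nonneg _

theorem Ctx.le_W (h : Ctx V) (hd : DensityGeOne V.fst) (hx : x ∈ Ico (0 : ℝ) 1) :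
    c0 k * ee V ω ≤ II V x fun z => ⟪ω, pr z.2.2 ω⟫ := by
  rw [II_swap, ee, GG, h.e5 ω]
  exact h.le_II hd hx (c := fun p => ⟪ω, pr p.2 ω⟫) (by fun_prop) (by fun_prop)
    fun p => pr_nonneg _ _

theorem Ctx.BB_le (h : Ctx V) (hx : x ^ 2 < 1) : BB V ω x ≤ RR V ω x := by
  have e : RR V ω x = II V x fun z => ⟪ω, z.2.1⟫ ^ 2 := II_swap _
  have h1 := h.gi2.mono hx (g1 := fun z => ⟪ω, z.1.1⟫ * ⟪ω, z.2.1⟫)
    (g2 := fun z => 1 / 2 * ⟪ω, z.1.1⟫ ^ 2 + 1 / 2 * ⟪ω, z.2.1⟫ ^ 2)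
    (fun z => by nlinarith [sq_nonneg (⟪ω, z.1.1⟫ - ⟪ω, z.2.1⟫)]) (by fun_prop) (by fun_prop)
  rw [h.gi2.lin2 hx (1 / 2) (1 / 2) (ae_of_all _ fun _ => rfl) (by fun_prop) (by fun_prop)] at h1
  unfold BB RR II at *
  linarith

theorem Ctx.ode (h : Ctx V) (hd : DensityGeOne V.fst) (hx : x ∈ Ioo (0 : ℝ) 1) :
    ∃ a b : ℝ, HasDerivAt (RR V ω) (-a) x ∧ HasDerivAt (fun t => BB V ω t / t) b x ∧ 0 ≤ a ∧
      |b| ≤ a / x + (ZZ V - c0 k) * ee V ω / x ^ 2 := by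
  have hx' : x ∈ Ico (0 : ℝ) 1 := ⟨hx.1.le, hx.2⟩
  have h2 := sq_lt_one hx'
  have x0 := hx.1
  have d1 := h.deriv_row h2 (c := fun p => ⟪ω, p.1⟫ ^ 2) (by fun_prop)
  have d2 := h.deriv2 h2 (g := fun z => ⟪ω, z.2.1⟫ ^ 2) (by fun_prop)
  have d3 := h.deriv2 h2 (g := fun z => ⟪ω, z.1.1⟫ * ⟪ω, z.2.1⟫) (by fun_prop)
  have e : ∀ t, RR V ω t = II V t fun z => ⟪ω, z.2.1⟫ ^ 2 := fun t => II_swap _
  have u := d1.unique (d2.congr_of_eventuallyEq (Eventually.of_forall e))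
  have i2 := h.id2 h2 ω
  have i3 := h.id3 h2 ω
  rw [← e] at i3
  have r1 := h.RR_le (ω := ω) hx'
  have r2 := h.le_W (ω := ω) hd hx'
  have m : ∀ s : ℝ, s ^ 2 = 1 → s * II V x (fun z => ⟪ω, z.1.1⟫ * ⟪ω, z.2.1⟫ * de x z) ≤
      1 / 2 * II V x (fun z => ⟪ω, z.1.1⟫ ^ 2 * de x z) +
        1 / 2 * II V x (fun z => ⟪ω, z.2.1⟫ ^ 2 * de x z) := fun s hs => by
    have h1 := h.gi2.mono h2 (g1 := fun z => s * (⟪ω, z.1.1⟫ * ⟪ω, z.2.1⟫ * de x z))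
      (g2 := fun z => 1 / 2 * (⟪ω, z.1.1⟫ ^ 2 * de x z) + 1 / 2 * (⟪ω, z.2.1⟫ ^ 2 * de x z))
      (fun z => by
        have := mul_nonneg (sq_nonneg (s * ⟪ω, z.1.1⟫ - ⟪ω, z.2.1⟫)) (de_nonneg x0.le z)
        rw [sub_sq, mul_pow, hs] at this
        linarith) (by fun_prop) (by fun_prop)
    rw [h.gi2.lin2 h2 (1 / 2) (1 / 2) (ae_of_all _ fun _ => rfl) (by fun_prop) (by fun_prop)] at h1
    simpa only [II, mul_assoc s, integral_const_mul] using h1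
  have m1 := m 1 (by norm_num)
  have m2 := m (-1) (by norm_num)
  refine ⟨_, -II V x (fun z => ⟪ω, z.1.1⟫ * ⟪ω, z.2.1⟫ * de x z) / x, d1,
    (d3.fun_div (hasDerivAt_id' x) x0.ne').congr_deriv ?_, integral_nonneg fun z =>
      mul_nonneg (mul_nonneg (sq_nonneg _) (de_nonneg x0.le z)) (kx_pos _ _ _).le, ?_⟩
  · rw [← i2]
    field_simp
    ring
  · rw [abs_div, abs_of_pos x0, div_le_iff₀ x0, abs_neg]
    set a1 := II V x fun z => ⟪ω, z.1.1⟫ ^ 2 * de x z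
    set a2 := II V x fun z => ⟪ω, z.2.1⟫ ^ 2 * de x z
    have k1 : (a1 / x + (ZZ V - c0 k) * ee V ω / x ^ 2) * x =
        a1 + (ZZ V - c0 k) * ee V ω / x := by field_simp
    have k2 : a2 - a1 ≤ 2 * ((ZZ V - c0 k) * ee V ω / x) := by
      rw [← mul_div_assoc, le_div_iff₀ x0]
      nlinarith
    rw [k1, abs_le]
    constructor <;> linarith

theorem Ctx.ode_le (h : Ctx V) (hd : DensityGeOne V.fst) (hx : 0 < x) {t : ℝ} (hxt : x ≤ t)
    (ht : t < 1) {s : ℝ} (hs : |s| = 1) :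
    s * (BB V ω t / t) + RR V ω t / x + (ZZ V - c0 k) * ee V ω / t ≤
      s * (BB V ω x / x) + RR V ω x / x + (ZZ V - c0 k) * ee V ω / x := by
  have hd' : ∀ u ∈ Icc x t, ∃ d, d ≤ 0 ∧ HasDerivAt (fun u => s * (BB V ω u / u) + RR V ω u / x +
      (ZZ V - c0 k) * ee V ω / u) d u := fun u hu => by
    have u0 : 0 < u := hx.trans_le hu.1
    obtain ⟨a, b, h1, h2, h3, h4⟩ := h.ode (ω := ω) hd ⟨u0, hu.2.trans_lt ht⟩
    refine ⟨_, ?_, ((h2.const_mul s).fun_add (h1.div_const x)).fun_add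
      ((hasDerivAt_const u _).fun_div (hasDerivAt_id' u) u0.ne')⟩
    have h5 : s * b ≤ |b| := (le_abs_self _).trans (by rw [abs_mul, hs, one_mul])
    have h6 : a / u ≤ a / x := div_le_div_of_nonneg_left h3 hx hu.1
    rw [zero_mul, mul_one, zero_sub, neg_div, neg_div]
    linarith
  choose! d hd1 hd2 using hd'
  exact antitoneOn_of_hasDerivWithinAt_nonpos (convex_Icc x t)
    (fun u hu => (hd2 u hu).continuousAt.continuousWithinAt)
    (fun u hu => (hd2 u (interior_subset hu)).hasDerivWithinAt)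
    (fun u hu => hd1 u (interior_subset hu)) ⟨le_rfl, hxt⟩ ⟨hxt, le_rfl⟩ hxt

theorem Ctx.BB_upper (h : Ctx V) (hd : DensityGeOne V.fst) (hx : x ∈ Ioo (0 : ℝ) 1) :
    BB V ω x ≤ x * (c0 k * ee V ω) + (ZZ V - c0 k) * ee V ω * (2 - x) := by
  have x0 := hx.1
  have T : Tendsto (fun t : ℝ => ((ZZ V - c0 k) * ee V ω - c0 k * ee V ω) * (1 - x / t) +
      ZZ V * ee V ω) (𝓝[<] 1)
      (𝓝 (((ZZ V - c0 k) * ee V ω - c0 k * ee V ω) * (1 - x / 1) + ZZ V * ee V ω)) :=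
    (ContinuousAt.tendsto (by fun_prop (disch := norm_num))).mono_left nhdsWithin_le_nhds
  refine (ge_of_tendsto T ?_).trans (le_of_eq (by ring))
  filter_upwards [Ioo_mem_nhdsLT hx.2] with t ht
  have t0 : 0 < t := x0.trans ht.1
  have h1 := mul_le_mul_of_nonneg_left (h.ode_le (ω := ω) hd x0 ht.1.le ht.2 (s := -1) (by simp))
    x0.le
  have h2 := h.BB_le (ω := ω) (sq_lt_one ⟨t0.le, ht.2⟩)
  have h3 := h.le_RR (ω := ω) hd ⟨t0.le, ht.2⟩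
  have h4 := h.RR_le (ω := ω) ⟨x0.le, hx.2⟩
  have h5 : 0 ≤ x / t := by positivity
  have h6 : 0 ≤ 1 - x / t := by rw [sub_nonneg, div_le_one t0]; exact ht.1.le
  have e1 : x * (-1 * (BB V ω t / t) + RR V ω t / x + (ZZ V - c0 k) * ee V ω / t) =
      -(x / t * BB V ω t) + RR V ω t + x / t * ((ZZ V - c0 k) * ee V ω) := by field_simp
  have e2 : x * (-1 * (BB V ω x / x) + RR V ω x / x + (ZZ V - c0 k) * ee V ω / x) =
      -BB V ω x + RR V ω x + (ZZ V - c0 k) * ee V ω := by field_simp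
  rw [e1, e2] at h1
  nlinarith [mul_le_mul_of_nonneg_left h2 h5, mul_le_mul_of_nonneg_left h3 h6]

theorem Ctx.deriv_one (h : Ctx V) (hx : x ^ 2 < 1) :
    HasDerivAt (fun x => II V x fun _ => 1) (-(x / (1 - x ^ 2) ^ 2 * KK V x)) x := by
  refine (h.deriv_row hx (c := fun _ => 1) (by fun_prop)).congr_deriv ?_
  rw [KK, II, II, ← integral_const_mul]
  congr 2
  funext z
  unfold de
  ring

theorem Ctx.KK_small (h : Ctx V) {η : ℝ} (hη : 0 < η) (hx : x < 1) :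
    ∃ t, x < t ∧ 1 / 2 ≤ t ∧ t < 1 ∧ KK V t ≤ η := by
  obtain ⟨u, u0, u1, u2, u3⟩ : ∃ u : ℝ, 0 < u ∧ u ≤ 1 / 4 ∧ 2 * u ≤ 1 - x ∧
      32 * u * ZZ V ^ 2 ≤ η := by
    have t : Tendsto (fun u : ℝ => 32 * u * ZZ V ^ 2) (𝓝[>] 0) (𝓝 (32 * 0 * ZZ V ^ 2)) :=
      (Continuous.tendsto (by fun_prop) 0).mono_left nhdsWithin_le_nhds
    have ev : ∀ᶠ u : ℝ in 𝓝[>] 0, u ∈ Ioo (0 : ℝ) (min (1 / 4) ((1 - x) / 2)) :=
      Ioo_mem_nhdsGT (lt_min (by norm_num) (by linarith))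
    obtain ⟨u, ⟨a, b⟩, c⟩ := (ev.and (t.eventually (gt_mem_nhds (by simpa using hη)))).exists
    rw [lt_min_iff] at b
    exact ⟨u, a, b.1.le, by linarith [b.2], c.le⟩
  have s : ∀ t ∈ Icc (1 - 2 * u) (1 - u), t ∈ Ico (0 : ℝ) 1 := fun t ht =>
    ⟨by linarith [ht.1], by linarith [ht.2]⟩
  obtain ⟨t, ht, e⟩ := exists_hasDerivAt_eq_slope (fun x => II V x fun _ => 1) _
    (show 1 - 2 * u < 1 - u by linarith)
    (fun t ht => (h.deriv_one (sq_lt_one (s t ht))).continuousAt.continuousWithinAt)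
    fun t ht => h.deriv_one (sq_lt_one (s t (Ioo_subset_Icc_self ht)))
  have h1 := h.II_le (s _ ⟨le_rfl, by linarith⟩) (c := fun _ => 1) (by fun_prop) (by fun_prop)
    fun _ => zero_le_one
  have h2 : 0 ≤ II V (1 - u) fun _ => 1 :=
    integral_nonneg fun z => mul_nonneg zero_le_one (kx_pos _ _ _).le
  have h3 : 0 ≤ KK V t := integral_nonneg fun z => mul_nonneg (be_nonneg _ _) (kx_pos _ _ _).le
  rw [GG_one] at h1
  obtain ⟨t1, t2⟩ := ht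
  refine ⟨t, by linarith, by linarith, by linarith, le_trans ?_ u3⟩
  have h4 : 0 < 1 - t ^ 2 := by nlinarith
  have h5 : (1 - t ^ 2) ^ 2 ≤ (4 * u) ^ 2 := pow_le_pow_left₀ h4.le (by nlinarith) 2
  rw [show 1 - u - (1 - 2 * u) = u by ring, eq_div_iff u0.ne'] at e
  have h6 : t / (1 - t ^ 2) ^ 2 * KK V t * u ≤ ZZ V ^ 2 := by linarith
  rw [div_mul_eq_mul_div, div_mul_eq_mul_div, div_le_iff₀ (by positivity)] at h6
  have h7 := mul_le_mul_of_nonneg_left h5 (sq_nonneg (ZZ V))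
  have h8 : 1 / 2 * KK V t * u ≤ t * KK V t * u := by gcongr; linarith
  refine le_of_mul_le_mul_right ?_ u0
  nlinarith

theorem Ctx.BB_lower (h : Ctx V) (hd : DensityGeOne V.fst) (hω : ‖ω‖ = 1)
    (hΔ : 0 ≤ (ZZ V - c0 k) * ee V ω) (hx : x ∈ Ioo (0 : ℝ) 1) :
    x * (c0 k * ee V ω) - (ZZ V - c0 k) * ee V ω * (2 - x) ≤ BB V ω x := by
  have x0 := hx.1
  have T : Tendsto (fun η : ℝ => BB V ω x + η * (ZZ V * ee V ω + 1)) (𝓝[>] 0)
      (𝓝 (BB V ω x + 0 * (ZZ V * ee V ω + 1))) :=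
    (Continuous.tendsto (by fun_prop) 0).mono_left nhdsWithin_le_nhds
  refine (ge_of_tendsto T ?_).trans (le_of_eq (by ring))
  filter_upwards [self_mem_nhdsWithin] with η hη
  have hη : 0 < η := hη
  obtain ⟨t, t1, t2, t3, t4⟩ := h.KK_small (η := η ^ 2) (by positivity) hx.2
  have t0 : 0 < t := by linarith
  have ht : t ∈ Ico (0 : ℝ) 1 := ⟨t0.le, t3⟩
  have h1 := mul_le_mul_of_nonneg_left (h.ode_le (ω := ω) hd x0 t1.le t3 (s := 1) abs_one) x0.le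
  have h2 : (1 - η) * RR V ω t - η ≤ BB V ω t / t := by
    have m := h.gi2.mono (sq_lt_one ht) (g2 := fun z => ⟪ω, z.1.1⟫ * ⟪z.1.1, pr z.2.2 ω⟫)
      (g1 := fun z => (1 - η) * ⟪ω, z.1.1⟫ ^ 2 + -(1 / η) * be z.2.2 z.1.1 z.1.1)
      (fun z => by
        have a := be_sq_le z.2.2 z.1.1 ω
        have b : ⟪z.1.1, pr z.2.2 ω⟫ = ⟪ω, z.1.1⟫ - be z.2.2 z.1.1 ω := by
          rw [be, pr, real_inner_comm ω]; ring
        rw [hω, one_pow, mul_one] at a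
        have c : 1 / η * be z.2.2 z.1.1 ω ^ 2 ≤ 1 / η * be z.2.2 z.1.1 z.1.1 := by gcongr
        obtain ⟨r, hr⟩ : ∃ r, be z.2.2 z.1.1 ω = η * r := ⟨be z.2.2 z.1.1 ω / η, by field_simp⟩
        rw [b]
        rw [hr] at c ⊢
        rw [show 1 / η * (η * r) ^ 2 = η * r ^ 2 by field_simp] at c
        nlinarith [mul_nonneg hη.le (sq_nonneg (⟪ω, z.1.1⟫ - r)),
          mul_nonneg hη.le (sq_nonneg ⟪ω, z.1.1⟫), mul_nonneg hη.le (sq_nonneg r)])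
      (by fun_prop) (by fun_prop)
    rw [h.gi2.lin2 (sq_lt_one ht) (1 - η) (-(1 / η)) (ae_of_all _ fun _ => rfl) (by fun_prop)
      (by fun_prop)] at m
    have c : 1 / η * KK V t ≤ η := by
      rw [div_mul_eq_mul_div, one_mul, div_le_iff₀ hη, ← sq]; exact t4
    rw [BB, h.id4 (sq_lt_one ht), mul_div_cancel_left₀ _ t0.ne']
    unfold RR KK II at *
    linarith
  have h3 := h.le_RR (ω := ω) hd ht
  have h4 := h.RR_le (ω := ω) ⟨x0.le, hx.2⟩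
  have h5 := h.RR_le (ω := ω) ht
  have h6 : (ZZ V - c0 k) * ee V ω ≤ (ZZ V - c0 k) * ee V ω / t := by
    rw [le_div_iff₀ t0]; nlinarith
  have h7 : 0 ≤ RR V ω t :=
    integral_nonneg fun z => mul_nonneg (sq_nonneg _) (kx_pos _ _ _).le
  have e1 : x * (1 * (BB V ω t / t) + RR V ω t / x + (ZZ V - c0 k) * ee V ω / t) =
      x * (BB V ω t / t) + RR V ω t + x * ((ZZ V - c0 k) * ee V ω / t) := by field_simp
  have e2 : x * (1 * (BB V ω x / x) + RR V ω x / x + (ZZ V - c0 k) * ee V ω / x) =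
      BB V ω x + RR V ω x + (ZZ V - c0 k) * ee V ω := by field_simp
  rw [e1, e2] at h1
  have h8 : x * (η * (RR V ω t + 1)) ≤ η * (ZZ V * ee V ω + 1) :=
    (mul_le_of_le_one_left (by positivity) hx.2.le).trans (by gcongr)
  nlinarith [mul_le_mul_of_nonneg_left h2 x0.le, mul_le_mul_of_nonneg_left h6 x0.le,
    mul_le_mul_of_nonneg_left h3 x0.le]

end Pool.Agent.P.MP_2b44f0_gt.Gap
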