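import Mathlib

/-! Varifolds in a Euclidean space, stationarity, cones and densities. -/

namespace Pool.Agent.P.MP_2b44f0_gt.Vf

open MeasureTheory Metric Filter Topology
open scoped ENNReal

/-- the Grassmannian of `k`-dimensional linear subspaces of `E`; a subspace is recorded by the
orthogonal projection onto it -/
def Gr (E : Type) [NormedAddCommGroup E] [InnerProductSpace ℝ E] (k : ℕ) : Type :=
  {P : E →L[ℝ] E // P.toLinearMap.IsSymmetricProjection ∧
    Module.finrank ℝ (LinearMap.range P.toLinearMap) = k}

variable {E : Type} [NormedAddCommGroup E] [InnerProductSpace ℝ E] {k : ℕ}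

/-- the projection onto the subspace -/
def Gr.proj (S : Gr E k) : E →L[ℝ] E := S.1

/-- the Borel sets of the Grassmannian -/
noncomputable instance grMeasurableSpace : MeasurableSpace (Gr E k) :=
  MeasurableSpace.comap Gr.proj (borel (E →L[ℝ] E))

/-- the divergence of the vector field `X` at `x` along the subspace `S` -/
noncomputable def divS (S : Gr E k) (X : E → E) (x : E) : ℝ :=
  LinearMap.trace ℝ E (S.proj ∘L fderiv ℝ X x).toLinearMap

variable [MeasurableSpace E]

/-- the first variation of the varifold `V` vanishes -/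
def Stationary (V : Measure (E × Gr E k)) : Prop :=
  ∀ X : E → E, ContDiff ℝ 1 X → HasCompactSupport X → ∫ p, divS p.2 X p.1 ∂V = 0

/-- the push-forward of the varifold `V` under every dilation is `V` -/
def IsCone (V : Measure (E × Gr E k)) : Prop :=
  ∀ t : ℝ, 0 < t → ENNReal.ofReal (t ^ k) • V.map (fun p => (t • p.1, p.2)) = V

/-- the density ratio `μ(B_r(x)) / (ω_k r^k)` -/
noncomputable def ratio (k : ℕ) (μ : Measure E) (x : E) (r : ℝ) : ℝ≥0∞ :=
  μ (ball x r) / (volume (ball (0 : EuclideanSpace ℝ (Fin k)) 1) * ENNReal.ofReal (r ^ k))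

/-- the lower `k`-dimensional density of `μ` is at least one almost everywhere -/
def DensityGeOne (k : ℕ) (μ : Measure E) : Prop :=
  ∀ᵐ x ∂μ, 1 ≤ liminf (ratio k μ x) (𝓝[>] 0)

end Pool.Agent.P.MP_2b44f0_gt.Vf
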