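import Pool.Agent.P.MP_2b44f0_gt.Gap.Defs
import Pool.Agent.P.MP_2b44f0_gt.Gap.Barg

/-! Gaussian integrals and density ratios (layer cake formula). -/

namespace Pool.Agent.P.MP_2b44f0_gt.Gap

open MeasureTheory Metric Filter Topology Set
open scoped ENNReal

/-- the radius of the level set -/
noncomputable def rad (t : ℝ) : ℝ := √(-2 * Real.log t)
/-- the volume growth of degree `k` -/
noncomputable def bk (k : ℕ) (r : ℝ) : ℝ≥0∞ := if 0 < r then ENNReal.ofReal (r ^ k) else 0
/-- the radial integral -/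
noncomputable def JJ (k : ℕ) : ℝ≥0∞ := ∫⁻ t in Ioi 0, bk k (rad t)
/-- the volume of the unit ball -/
noncomputable def om (k : ℕ) : ℝ≥0∞ := volume (ball (0 : EuclideanSpace ℝ (Fin k)) 1)
/-- the Gaussian integral in dimension `k` -/
noncomputable def c0 (k : ℕ) : ℝ := (JJ k * om k).toReal

theorem meas_bk (k : ℕ) : Measurable fun t => bk k (rad t) := by
  have : Measurable rad := by unfold rad; fun_prop
  unfold bk
  exact Measurable.ite (measurableSet_lt measurable_const this) (by fun_prop) measurable_const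

theorem layer {X : Type} [NormedAddCommGroup X] [MeasurableSpace X] [BorelSpace X]
    (m : Measure X) (y : X) {σ : ℝ} (hσ : 0 < σ) :
    ∫⁻ w, ENNReal.ofReal (Real.exp (-‖w - y‖ ^ 2 / (2 * σ ^ 2))) ∂m =
      ∫⁻ t in Ioi 0, m (ball y (σ * rad t)) := by
  rw [lintegral_eq_lintegral_meas_lt m (ae_of_all _ fun w => (Real.exp_pos _).le)
    (Continuous.aemeasurable (by fun_prop))]
  refine setLIntegral_congr_fun measurableSet_Ioi fun t ht => ?_
  congr 1
  ext w
  rw [mem_ofPred_eq, mem_ball, dist_eq_norm, ← Real.log_lt_iff_lt_exp ht, ← div_lt_iff₀' hσ, rad,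
    Real.lt_sqrt (by positivity), div_pow, div_lt_iff₀ (by positivity),
    lt_div_iff₀ (by positivity)]
  constructor <;> intro h <;> linarith

theorem layer_hom {X : Type} [NormedAddCommGroup X] [MeasurableSpace X] [BorelSpace X]
    (m : Measure X) {k : ℕ}
    (h : ∀ r, 0 < r → m (ball 0 r) = ENNReal.ofReal (r ^ k) * m (ball 0 1)) {σ : ℝ} (hσ : 0 < σ) :
    ∫⁻ w, ENNReal.ofReal (Real.exp (-‖w‖ ^ 2 / (2 * σ ^ 2))) ∂m =
      ENNReal.ofReal (σ ^ k) * (JJ k * m (ball 0 1)) := by
  have := layer m 0 hσ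
  simp only [sub_zero] at this
  rw [this, JJ, ← lintegral_mul_const _ (meas_bk k),
    ← lintegral_const_mul' _ _ ENNReal.ofReal_ne_top]
  refine lintegral_congr fun t => ?_
  unfold bk
  split_ifs with h0
  · rw [h _ (mul_pos hσ h0), mul_pow, ENNReal.ofReal_mul (by positivity), mul_assoc]
  · rw [ball_eq_empty.2 (by nlinarith), measure_empty, zero_mul, mul_zero]

theorem om_pos (k : ℕ) : om k ≠ 0 := (measure_ball_pos _ _ one_pos).ne'
theorem om_fin (k : ℕ) : om k ≠ ⊤ := measure_ball_lt_top.ne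

theorem JJ_fin (k : ℕ) : JJ k ≠ ⊤ := by
  have h := layer_hom (volume : Measure (EuclideanSpace ℝ (Fin k))) (k := k)
    (fun r hr => by simpa using Measure.addHaar_ball_of_pos volume (0 : EuclideanSpace ℝ (Fin k)) hr)
    one_pos
  have h2 := (int_gauss (V := EuclideanSpace ℝ (Fin k)) (c := 1 / 2) (by norm_num)).lintegral_lt_top
  intro e
  rw [e, ← om, ENNReal.top_mul (om_pos k), ENNReal.mul_top (by simp)] at h
  refine h2.ne (h ▸ lintegral_congr fun w => ?_)
  congr 2
  ring

variable {k : ℕ}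

/-- homogeneous measures -/
def Hom (μ : Measure (E k)) : Prop :=
  ∀ t : ℝ, 0 < t → ENNReal.ofReal (t ^ k) • μ.map (fun x => t • x) = μ

theorem IsCone.hom {V : Measure (E k × Gr k)} (h : IsCone V) : Hom V.fst := fun t ht => by
  conv_rhs => rw [← h t ht]
  rw [Measure.fst, Measure.fst, Measure.map_smul, Measure.map_map (by fun_prop) (by fun_prop),
    Measure.map_map (by fun_prop) (by fun_prop)]
  rfl

variable {μ : Measure (E k)}

theorem Hom.ball (h : Hom μ) (r : ℝ) (hr : 0 < r) :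
    μ (ball 0 r) = ENNReal.ofReal (r ^ k) * μ (ball 0 1) := by
  conv_lhs => rw [← h r hr]
  rw [Measure.smul_apply, smul_eq_mul, Measure.map_apply (by fun_prop) measurableSet_ball]
  congr 2
  ext x
  simp [norm_smul, abs_of_pos hr, hr]

theorem Hom.integral (h : Hom μ) {t : ℝ} (ht : 0 < t) {f : E k → ℝ} (hf : Continuous f) :
    ∫ w, f w ∂μ = t ^ k * ∫ w, f (t • w) ∂μ := by
  conv_lhs => rw [← h t ht]
  rw [integral_smul_measure, integral_map (by fun_prop) hf.aestronglyMeasurable,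
    ENNReal.toReal_ofReal (by positivity), smul_eq_mul]

theorem Hom.integrable [IsFiniteMeasureOnCompacts μ] (h : Hom μ) {c : ℝ} (hc : 0 < c) :
    Integrable (fun w => Real.exp (-c * ‖w‖ ^ 2)) μ := by
  refine ⟨Continuous.aestronglyMeasurable (by fun_prop), ?_⟩
  rw [hasFiniteIntegral_iff_ofReal (ae_of_all _ fun w => (Real.exp_pos _).le)]
  have h1 := layer_hom μ h.ball (σ := √(1 / (2 * c))) (by positivity)
  rw [Real.sq_sqrt (by positivity)] at h1
  have e : ∀ w : E k, -c * ‖w‖ ^ 2 = -‖w‖ ^ 2 / (2 * (1 / (2 * c))) := fun w => by field_simp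
  simp only [e, h1]
  exact ENNReal.mul_lt_top ENNReal.ofReal_lt_top
    (ENNReal.mul_lt_top (JJ_fin k).lt_top measure_ball_lt_top)

theorem Hom.gauss_le [IsFiniteMeasureOnCompacts μ] (h : Hom μ) {θ : ℝ} (hθ : 0 ≤ θ)
    (hr : ratio μ 0 1 ≤ ENNReal.ofReal θ) : ∫ w, Real.exp (-‖w‖ ^ 2 / 2) ∂μ ≤ θ * c0 k := by
  have h1 := layer_hom μ h.ball one_pos
  simp only [one_pow, mul_one, ENNReal.ofReal_one, one_mul] at h1
  rw [integral_eq_lintegral_of_nonneg_ae (ae_of_all _ fun w => (Real.exp_pos _).le)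
    (Continuous.aestronglyMeasurable (by fun_prop)), h1, c0, ← ENNReal.toReal_ofReal hθ,
    ← ENNReal.toReal_mul]
  refine ENNReal.toReal_mono (ENNReal.mul_ne_top ENNReal.ofReal_ne_top
    (ENNReal.mul_ne_top (JJ_fin k) (om_fin k))) ?_
  rw [ratio, one_pow, ENNReal.ofReal_one, mul_one, ← om,
    ENNReal.div_le_iff (om_pos k) (om_fin k)] at hr
  rw [mul_left_comm]
  exact mul_le_mul_right hr _

theorem c0_le {y : E k} (hy : 1 ≤ liminf (ratio μ y) (𝓝[>] 0)) {B : ℝ} (hB : 0 ≤ B)
    (h : ∀ᶠ σ in 𝓝[>] (0 : ℝ), ∫⁻ w, ENNReal.ofReal (Real.exp (-‖w - y‖ ^ 2 / (2 * σ ^ 2))) ∂μ ≤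
      ENNReal.ofReal (B * σ ^ k)) : c0 k ≤ B := by
  refine ENNReal.toReal_le_of_le_ofReal hB ?_
  have hm : Measurable fun r => μ (ball y r) :=
    Monotone.measurable fun r s hrs => measure_mono (ball_subset_ball hrs)
  have hrad : Measurable rad := by unfold rad; fun_prop
  have F := lintegral_liminf_le (μ := volume.restrict (Ioi (0 : ℝ))) (u := 𝓝[>] (0 : ℝ))
    (f := fun σ t => μ (ball y (σ * rad t)) / ENNReal.ofReal (σ ^ k))
    fun σ => (hm.comp (hrad.const_mul σ)).div_const _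
  refine le_trans ?_ (F.trans (liminf_le_of_frequently_le' (Eventually.frequently ?_)))
  · rw [JJ, ← lintegral_mul_const _ (meas_bk k)]
    refine lintegral_mono fun t => ?_
    unfold bk
    split_ifs with h0
    · refine ENNReal.le_of_forall_lt_one_mul_le fun a ha => le_liminf_of_le (h := ?_)
      have t1 : Tendsto (fun σ : ℝ => σ * rad t) (𝓝[>] 0) (𝓝[>] 0) := by
        refine tendsto_nhdsWithin_iff.2 ⟨?_, ?_⟩
        · simpa using ((continuous_mul_const (rad t)).tendsto 0).mono_left nhdsWithin_le_nhds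
        · filter_upwards [self_mem_nhdsWithin] with σ hσ using mul_pos hσ h0
      filter_upwards [t1.eventually (eventually_lt_of_lt_liminf (ha.trans_le hy)),
        self_mem_nhdsWithin] with σ h1 hσ
      have hσ' : 0 < σ := hσ
      rw [ENNReal.le_div_iff_mul_le (Or.inl (by simpa using pow_pos hσ' k))
        (Or.inl ENNReal.ofReal_ne_top)]
      refine le_trans (le_of_eq ?_) (ENNReal.mul_le_of_le_div h1.le)
      rw [mul_pow, ENNReal.ofReal_mul (by positivity), om]
      ring
    · simp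
  · filter_upwards [h, self_mem_nhdsWithin] with σ h1 hσ
    have hσ' : 0 < σ := hσ
    simp only [div_eq_mul_inv]
    rw [lintegral_mul_const _ (f := fun t => μ (ball y (σ * rad t))) (hm.comp (hrad.const_mul σ)),
      ← layer μ y hσ', ← div_eq_mul_inv]
    refine ENNReal.div_le_of_le_mul ?_
    rwa [← ENNReal.ofReal_mul hB]

end Pool.Agent.P.MP_2b44f0_gt.Gap
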