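import Pool.Agent.P.MP_2b44f0_gt.Gap.Eig

/-! The density gap. -/

namespace Pool.Agent.P.MP_2b44f0_gt.Gap

open MeasureTheory Metric Filter Topology Set
open scoped RealInnerProductSpace

variable {k : ℕ} {V : Measure (E k × Gr k)} {ω : E k}

/-- the mean projection onto the normal line -/
noncomputable def NN (V : Measure (E k × Gr k)) : E k →L[ℝ] E k :=
  ∫ p, kx 0 0 p.1 • ((1 : E k →L[ℝ] E k) - p.2.1) ∂V

theorem h00 : (0 : ℝ) ^ 2 < 1 := by norm_num

theorem Ctx.inner_NN (h : Ctx V) (a b : E k) : ⟪a, NN V b⟫ = GG V fun p => be p.2 a b := by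
  have hc : Continuous fun p : E k × Gr k => kx 0 0 p.1 :=
    continuous_kx 0 continuous_const continuous_fst
  have hi : Integrable (fun p : E k × Gr k => kx 0 0 p.1 • ((1 : E k →L[ℝ] E k) - p.2.1)) V := by
    refine ((h.gi 0).ker (PG.const 2) h00).mono' (Continuous.aestronglyMeasurable (by fun_prop))
      (ae_of_all _ fun p => ?_)
    rw [norm_smul, Real.norm_of_nonneg (kx_pos _ _ _).le, mul_comm]
    refine mul_le_mul_of_nonneg_right (ContinuousLinearMap.opNorm_le_bound _ zero_le_two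
      fun v => (norm_sub_le v (p.2.1 v)).trans ?_) (kx_pos _ _ _).le
    linarith [p.2.norm_le v]
  have := ((innerSL ℝ a).comp (ContinuousLinearMap.apply ℝ (E k) b)).integral_comp_comm hi
  refine this.symm.trans (integral_congr_ae (ae_of_all _ fun p => ?_))
  simp [be, inner_sub_right, mul_comm]

theorem Ctx.GG_pr (h : Ctx V) (a b : E k) :
    GG V (fun p => ⟪a, pr p.2 b⟫) = ZZ V * ⟪a, b⟫ - ⟪a, NN V b⟫ := by
  rw [h.inner_NN, ← GG_one, GG, (h.gi 0).lin2 h00 ⟪a, b⟫ (-1) (g1 := fun _ => 1)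
    (g2 := fun p => be p.2 a b) (ae_of_all _ fun p => by simp [be, pr]) (by fun_prop)
    (by fun_prop), GG, GG]
  ring

theorem Ctx.ee_eq (h : Ctx V) (hω : ‖ω‖ = 1) {n : ℝ} (hn : NN V ω = n • ω) :
    ee V ω = ZZ V - n := by
  have := h.GG_pr ω ω
  rw [hn, real_inner_smul_right, real_inner_self_eq_norm_sq, hω, GG, ← h.e5] at this
  simpa [ee, GG] using this

variable [SFinite V]

theorem Ctx.eigen (h : Ctx V) (hd : DensityGeOne V.fst) (hω : ‖ω‖ = 1) {n : ℝ}
    (hn : NN V ω = n • ω) (he : 0 < ee V ω) (hZ : ZZ V ≤ 101 / 100 * c0 k) :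
    757 / 1000 * c0 k ≤ ee V ω := by
  have hΔ : 0 ≤ (ZZ V - c0 k) * ee V ω := by
    have h0 : (0 : ℝ) ∈ Ico (0 : ℝ) 1 := ⟨le_rfl, one_pos⟩
    linarith [h.RR_le (ω := ω) h0, h.le_RR (ω := ω) hd h0]
  have hid : PG (⟨fun w => ‖w‖ ^ 2⟩ : Sz (E k)) fun w => w := PG.of_sq continuous_id fun _ => le_rfl
  obtain ⟨T, hT, e1⟩ := (h.am (f := fun w => ⟪ω, w⟫) ((PG.const ω).inner hid)).shift
  obtain ⟨T2, hT2, e2⟩ := hT.shift
  have hg : PG (s2 k) fun z => ⟪ω, z.1.1⟫ * ⟪z.1.1, pr z.2.2 ω⟫ := by fun_prop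
  rw [h.id4 h00, zero_mul, zero_div] at e1
  have t0 : T 0 = ee V ω ^ 2 := by
    have c : ContinuousAt (fun x => II V x (fun z => ⟪ω, z.1.1⟫ * ⟪z.1.1, pr z.2.2 ω⟫) /
        √(1 - x ^ 2)) 0 := (h.II_cont hg h00).div (by fun_prop) (by simp)
    have t := c.tendsto.mono_left (nhdsWithin_le_nhds (s := Ioi 0))
    have v : II V 0 (fun z => ⟪ω, z.1.1⟫ * ⟪z.1.1, pr z.2.2 ω⟫) = ee V ω ^ 2 := by
      have : ∀ p : E k × Gr k, GG V (fun q => ⟪ω, p.1⟫ * ⟪p.1, pr q.2 ω⟫) =
          ee V ω * ⟪ω, p.1⟫ ^ 2 := fun p => by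
        have := h.GG_pr p.1 ω
        rw [hn, real_inner_smul_right, ← sub_mul, ← h.ee_eq hω hn, real_inner_comm] at this
        simp only [GG, mul_assoc, integral_const_mul] at this ⊢
        rw [this]
        ring
      rw [h.II_zero hg]
      simp only [this]
      simp only [GG, mul_assoc, integral_const_mul]
      exact (sq _).symm
    rw [v] at t
    refine (tendsto_nhds_unique_of_eventuallyEq hT.tendsto t ?_).trans (by simp)
    filter_upwards [Ioo_mem_nhdsGT one_pos] with x hx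
    have := e1 x hx.1.le hx.2
    rw [h.id4 (sq_lt_one ⟨hx.1.le, hx.2⟩), zero_add, mul_div_assoc] at this
    exact (mul_left_cancel₀ hx.1.ne' this).symm
  have a1 := e1 (11 / 61) (by norm_num) (by norm_num)
  have a2 := e1 (3 / 5) (by norm_num) (by norm_num)
  rw [e2 _ (by norm_num) (by norm_num), t0] at a1 a2
  rw [show (1 : ℝ) - (11 / 61) ^ 2 = (60 / 61) ^ 2 by norm_num, Real.sqrt_sq (by norm_num)] at a1
  rw [show (1 : ℝ) - (3 / 5) ^ 2 = (4 / 5) ^ 2 by norm_num, Real.sqrt_sq (by norm_num)] at a2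
  have a3 := hT2.mono (x := 11 / 61) (y := 3 / 5) (by norm_num) (by norm_num) (by norm_num)
  have a4 := h.BB_lower hd hω hΔ (x := 11 / 61) ⟨by norm_num, by norm_num⟩
  have a5 := h.BB_upper (ω := ω) hd (x := 3 / 5) ⟨by norm_num, by norm_num⟩
  have a6 := mul_le_mul_of_nonneg_right hZ he.le
  have a7 : 0 ≤ c0 k * ee V ω := mul_nonneg ENNReal.toReal_nonneg he.le
  unfold BB at a4 a5
  refine le_of_mul_le_mul_right ?_ he
  nlinarith

theorem Ctx.second (h : Ctx V) (hd : DensityGeOne V.fst) :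
    37 / 35 * (c0 k * ZZ V) ≤ (1 + (20 / 37) ^ 3 / 4) * ZZ V ^ 2 +
      (12 / 37) ^ 2 * (17 / 37) * ((ZZ V ^ 2 - KK V 0) / 2) := by
  have hA := h.am (f := fun _ => 1) (PG.const 1)
  simp only [mul_one] at hA
  obtain ⟨T1, hT1, e1⟩ := hA.shift
  obtain ⟨T2, hT2, e2⟩ := hT1.shift
  obtain ⟨T3, hT3, e3⟩ := hT2.shift
  have z : II V 0 (fun _ => 1) = ZZ V ^ 2 := by
    rw [h.II_zero (PG.const 1), GG_one, sq]
    conv_rhs => rw [← GG_one]
    simp only [GG, one_mul, integral_const_mul, ← GG_one]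
  have ev : ∀ᶠ x : ℝ in 𝓝[>] 0, x ∈ Ioo (0 : ℝ) 1 := Ioo_mem_nhdsGT one_pos
  have L : Tendsto (fun x => (II V x (fun _ => 1) / √(1 - x ^ 2) -
      II V 0 (fun _ => 1) / √(1 - 0 ^ 2)) / x ^ 2) (𝓝[>] 0) (𝓝 ((ZZ V ^ 2 - KK V 0) / 2)) := by
    refine HasDerivAt.lhopital_zero_nhdsGT (g' := fun x => 2 * x)
      (f' := fun x => 2 * x * ((II V x (fun _ => 1) / √(1 - x ^ 2) -
        KK V x * √(1 - x ^ 2) / (1 - x ^ 2) ^ 2) / (2 * √(1 - x ^ 2) ^ 2))) ?_
      (Eventually.of_forall fun x => by simpa using hasDerivAt_pow 2 x)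
      (ev.mono fun x hx => by have := hx.1; positivity) ?_ ?_ ?_
    · filter_upwards [ev] with x hx
      have h1 := sq_lt_one ⟨hx.1.le, hx.2⟩
      have h2 : 0 < 1 - x ^ 2 := by linarith
      have h3 := (Real.sqrt_pos.2 h2).ne'
      have h4 : HasDerivAt (fun x : ℝ => 1 - x ^ 2) (-(2 * x)) x := by
        simpa using (hasDerivAt_pow 2 x).const_sub 1
      refine (((h.deriv_one h1).fun_div (h4.sqrt h2.ne') h3).sub_const _).congr_deriv ?_
      field_simp
      ring
    · have := hA.tendsto.sub_const (II V 0 (fun _ => 1) / √(1 - 0 ^ 2))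
      rwa [sub_self] at this
    · simpa using ((continuous_pow 2).tendsto (0 : ℝ)).mono_left nhdsWithin_le_nhds
    · have c1 := h.II_cont (PG.const 1) h00
      have c2 : ContinuousAt (KK V) 0 := h.II_cont (by fun_prop) h00
      have c : ContinuousAt (fun x => (II V x (fun _ => 1) / √(1 - x ^ 2) -
          KK V x * √(1 - x ^ 2) / (1 - x ^ 2) ^ 2) / (2 * √(1 - x ^ 2) ^ 2)) 0 := by
        fun_prop (disch := simp)
      have t := c.tendsto.mono_left (nhdsWithin_le_nhds (s := Ioi 0))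
      rw [z] at t
      refine Tendsto.congr' ?_ (by simpa using t)
      filter_upwards [ev] with x hx
      rw [mul_div_cancel_left₀ _ (by have := hx.1; positivity)]
  have L1 : Tendsto (fun x => T1 x / x) (𝓝[>] 0) (𝓝 ((ZZ V ^ 2 - KK V 0) / 2)) := by
    refine L.congr' ?_
    filter_upwards [ev] with x hx
    have := hx.1.ne'
    rw [e1 x hx.1.le hx.2]
    field_simp
    ring
  have t1 : T1 0 = 0 := by
    have := (tendsto_id.mono_left (nhdsWithin_le_nhds (a := (0 : ℝ)) (s := Ioi 0))).mul L1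
    refine (tendsto_nhds_unique_of_eventuallyEq hT1.tendsto this ?_).trans (by simp)
    filter_upwards [ev] with x hx
    rw [id, mul_div_cancel₀ _ hx.1.ne']
  have t2 : T2 0 = (ZZ V ^ 2 - KK V 0) / 2 := by
    refine tendsto_nhds_unique_of_eventuallyEq hT2.tendsto L1 ?_
    filter_upwards [ev] with x hx
    rw [e2 x hx.1.le hx.2, t1, zero_add, mul_div_cancel_left₀ _ hx.1.ne']
  have a1 := e1 (12 / 37) (by norm_num) (by norm_num)
  have a2 := e1 (3 / 5) (by norm_num) (by norm_num)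
  rw [e2 _ (by norm_num) (by norm_num), e3 _ (by norm_num) (by norm_num), t1, t2, z] at a1 a2
  rw [show (1 : ℝ) - (12 / 37) ^ 2 = (35 / 37) ^ 2 by norm_num, Real.sqrt_sq (by norm_num)] at a1
  rw [show (1 : ℝ) - (3 / 5) ^ 2 = (4 / 5) ^ 2 by norm_num, Real.sqrt_sq (by norm_num)] at a2
  have a3 := hT3.mono (x := 12 / 37) (y := 3 / 5) (by norm_num) (by norm_num) (by norm_num)
  have a4 := h.le_II hd (x := 12 / 37) ⟨by norm_num, by norm_num⟩ (c := fun _ => 1)
    (by fun_prop) (by fun_prop) fun _ => zero_le_one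
  have a5 := h.II_le (x := 3 / 5) ⟨by norm_num, by norm_num⟩ (c := fun _ => 1)
    (by fun_prop) (by fun_prop) fun _ => zero_le_one
  rw [GG_one] at a4 a5
  simp only [ne_eq, OfNat.ofNat_ne_zero, not_false_eq_true, zero_pow, sub_zero, Real.sqrt_one,
    div_one] at a1 a2
  nlinarith

theorem Ctx.gap (h : Ctx V) (hd : DensityGeOne V.fst)
    (hf : ¬ ∃ ω : E k, ω ≠ 0 ∧ ∀ᵐ x ∂V.fst, ⟪ω, x⟫ = 0) (hZ : ZZ V ≤ 101 / 100 * c0 k) : False := by
  have hs : (NN V).toLinearMap.IsSymmetric := fun a b => by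
    simp only [ContinuousLinearMap.coe_coe]
    rw [real_inner_comm, h.inner_NN, h.inner_NN]
    simp only [be_comm _ a b]
  have hr : Module.finrank ℝ (E k) = k + 1 := by simp
  let b := hs.eigenvectorBasis hr
  let n := hs.eigenvalues hr
  have hb : ∀ i, NN V (b i) = n i • b i := fun i => hs.apply_eigenvectorBasis hr i
  have he : ∀ i, 0 < ee V (b i) := fun i => by
    have h0 : 0 ≤ fun p : E k × Gr k => ⟪b i, p.1⟫ ^ 2 * kx 0 0 p.1 := fun p =>
      mul_nonneg (sq_nonneg _) (kx_pos _ _ _).le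
    refine (integral_nonneg h0).lt_of_ne' fun e => hf ⟨b i, b.orthonormal.ne_zero i, ?_⟩
    rw [integral_eq_zero_iff_of_nonneg h0 ((h.gi 0).ker (by fun_prop) h00)] at e
    rw [Measure.fst, ae_map_iff measurable_fst.aemeasurable
      (isClosed_eq (by fun_prop) continuous_const).measurableSet]
    filter_upwards [e] with p hp
    exact pow_eq_zero_iff two_ne_zero |>.1 ((mul_eq_zero.1 hp).resolve_right (kx_pos _ _ _).ne')
  have hn : ∀ i, n i = GG V fun p => be p.2 (b i) (b i) := fun i => by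
    rw [← h.inner_NN, hb, real_inner_smul_right, real_inner_self_eq_norm_sq, b.norm_eq_one]
    simp
  have hn0 : ∀ i, 0 ≤ n i := fun i =>
    hn i ▸ integral_nonneg fun p => mul_nonneg (be_nonneg _ _) (kx_pos _ _ _).le
  have hsum : ∑ i, n i = ZZ V := by
    simp only [hn, GG]
    rw [← integral_finsetSum _ fun i _ => (h.gi 0).ker (by fun_prop) h00, ← GG_one]
    simp only [← Finset.sum_mul, be_sum, GG]
  have hK : KK V 0 = ∑ i, n i * (ZZ V - n i) := by
    have : ∀ y : E k, ⟪y, NN V y⟫ = ∑ i, n i * ⟪b i, y⟫ ^ 2 := fun y => by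
      rw [← b.sum_inner_mul_inner]
      refine Finset.sum_congr rfl fun i _ => ?_
      have := hs (b i) y
      simp only [ContinuousLinearMap.coe_coe] at this
      rw [← this, hb, real_inner_smul_left, real_inner_comm]
      ring
    rw [KK, h.II_zero (by fun_prop)]
    simp only [← h.inner_NN, this]
    simp only [← h.ee_eq (b.norm_eq_one _) (hb _), ee, GG, Finset.sum_mul]
    rw [integral_finsetSum _ fun i _ => (h.gi 0).ker (by fun_prop) h00]
    simp only [mul_assoc, integral_const_mul]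
  have hle : ∀ i, n i ≤ 253 / 1000 * c0 k := fun i => by
    linarith [h.eigen hd (b.norm_eq_one i) (hb i) (he i) hZ, h.ee_eq (b.norm_eq_one i) (hb i)]
  have hq : ZZ V ^ 2 - KK V 0 ≤ 253 / 1000 * c0 k * ZZ V := by
    have : ZZ V ^ 2 - KK V 0 = ∑ i, n i * n i := by
      simp only [hK, mul_sub, Finset.sum_sub_distrib, ← Finset.sum_mul, hsum]
      ring
    rw [this, ← hsum, Finset.mul_sum]
    exact Finset.sum_le_sum fun i _ => mul_le_mul_of_nonneg_right (hle i) (hn0 i)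
  have hZ0 : 0 < ZZ V := by linarith [he 0, h.ee_eq (b.norm_eq_one 0) (hb 0), hn0 0]
  have hc : 0 < c0 k * ZZ V := mul_pos (by linarith) hZ0
  have := h.second hd
  nlinarith [mul_le_mul_of_nonneg_right hZ hZ0.le]

end Pool.Agent.P.MP_2b44f0_gt.Gap
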