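import Pool.Agent.P.MP_2b44f0_gt.Gap.Stat

/-! Functions of polynomial growth and the Gaussian kernel. -/

namespace Pool.Agent.P.MP_2b44f0_gt.Gap

open MeasureTheory Metric Filter Topology Set
open scoped RealInnerProductSpace

/-- size functions -/
structure Sz (α : Type) : Type where
  f : α → ℝ

section
variable {α F : Type} [TopologicalSpace α] [NormedAddCommGroup F] {s : Sz α}

/-- continuous functions of polynomial growth with respect to the size `s` -/
@[fun_prop] def PG (s : Sz α) (g : α → F) : Prop :=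
  Continuous g ∧ ∃ (C : ℝ) (m : ℕ), 0 ≤ C ∧ ∀ a, ‖g a‖ ≤ C * (1 + |s.f a|) ^ m

namespace PG

@[fun_prop] theorem const (c : F) : PG s fun _ => c :=
  ⟨continuous_const, ‖c‖, 0, norm_nonneg _, fun _ => by simp⟩

theorem of_add {G H : Type} [NormedAddCommGroup G] [NormedAddCommGroup H] {f : α → F} {g : α → G}
    {h : α → H} (hf : PG s f) (hg : PG s g) (hc : Continuous h)
    (hb : ∀ a, ‖h a‖ ≤ ‖f a‖ + ‖g a‖) : PG s h := by
  obtain ⟨-, C, m, hC, h1⟩ := hf
  obtain ⟨-, D, n, hD, h2⟩ := hg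
  refine ⟨hc, C + D, m + n, by positivity, fun a => (hb a).trans ?_⟩
  have h0 : 1 ≤ 1 + |s.f a| := by linarith [abs_nonneg (s.f a)]
  rw [add_mul]
  exact add_le_add
    ((h1 a).trans (mul_le_mul_of_nonneg_left (pow_le_pow_right₀ h0 (by omega)) hC))
    ((h2 a).trans (mul_le_mul_of_nonneg_left (pow_le_pow_right₀ h0 (by omega)) hD))

theorem of_mul {G H : Type} [NormedAddCommGroup G] [NormedAddCommGroup H] {f : α → F} {g : α → G}
    {h : α → H} (hf : PG s f) (hg : PG s g) (hc : Continuous h)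
    (hb : ∀ a, ‖h a‖ ≤ ‖f a‖ * ‖g a‖) : PG s h := by
  obtain ⟨-, C, m, hC, h1⟩ := hf
  obtain ⟨-, D, n, hD, h2⟩ := hg
  refine ⟨hc, C * D, m + n, by positivity, fun a => (hb a).trans ?_⟩
  rw [pow_add, mul_mul_mul_comm]
  exact mul_le_mul (h1 a) (h2 a) (norm_nonneg _) (by positivity)

@[fun_prop] theorem add {f g : α → F} (hf : PG s f) (hg : PG s g) : PG s fun a => f a + g a :=
  hf.of_add hg (hf.1.add hg.1) fun _ => norm_add_le _ _
@[fun_prop] theorem sub {f g : α → F} (hf : PG s f) (hg : PG s g) : PG s fun a => f a - g a :=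
  hf.of_add hg (hf.1.sub hg.1) fun _ => norm_sub_le _ _
@[fun_prop] theorem neg {f : α → F} (hf : PG s f) : PG s fun a => -f a :=
  hf.of_add hf hf.1.neg fun _ => by simp
@[fun_prop] theorem norm {f : α → F} (hf : PG s f) : PG s fun a => ‖f a‖ :=
  hf.of_add hf hf.1.norm fun _ => by simp
@[fun_prop] theorem mul {f g : α → ℝ} (hf : PG s f) (hg : PG s g) : PG s fun a => f a * g a :=
  hf.of_mul hg (hf.1.mul hg.1) fun _ => norm_mul_le _ _
@[fun_prop] theorem div {f : α → ℝ} (hf : PG s f) (c : ℝ) : PG s fun a => f a / c := by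
  simpa only [div_eq_mul_inv] using hf.mul (const c⁻¹)
@[fun_prop] theorem pow {f : α → ℝ} (hf : PG s f) (n : ℕ) : PG s fun a => f a ^ n := by
  induction n with
  | zero => simpa using const 1
  | succ n ih => simpa only [pow_succ] using ih.mul hf
variable {k : ℕ}
@[fun_prop] theorem inner {f g : α → E k} (hf : PG s f) (hg : PG s g) :
    PG s fun a => ⟪f a, g a⟫ :=
  hf.of_mul hg (hf.1.inner hg.1) fun _ => norm_inner_le_norm _ _
/-- the projection applied to a vector -/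
noncomputable def _root_.Pool.Agent.P.MP_2b44f0_gt.Gap.pr (S : Gr k) (a : E k) : E k := S.1 a
@[fun_prop] theorem pr {S : α → Gr k} {f : α → E k} (hS : Continuous S) (hf : PG s f) :
    PG s fun a => pr (S a) (f a) :=
  hf.of_add hf (by have := hf.1; unfold Gap.pr; fun_prop) fun a =>
    ((S a).norm_le _).trans (le_add_of_nonneg_right (norm_nonneg _))
@[fun_prop] theorem be {S : α → Gr k} {f g : α → E k} (hS : Continuous S) (hf : PG s f)
    (hg : PG s g) : PG s fun a => be (S a) (f a) (g a) :=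
  (hf.inner hg).sub (hf.inner (pr hS hg))

theorem of_sq {f : α → F} (hc : Continuous f) (hb : ∀ a, ‖f a‖ ^ 2 ≤ s.f a) : PG s f :=
  ⟨hc, 1, 1, zero_le_one, fun a => by
    nlinarith [hb a, le_abs_self (s.f a), sq_nonneg (‖f a‖ - 1), abs_nonneg (s.f a)]⟩

theorem integrable [MeasurableSpace α] [OpensMeasurableSpace α] {m : Measure α} {g : α → ℝ}
    (hg : PG s g) (hs : Continuous s.f) (h0 : ∀ a, 0 ≤ s.f a)
    (hm : ∀ c : ℝ, 0 < c → Integrable (fun a => Real.exp (-c * s.f a)) m) {c : ℝ} (hc : 0 < c) :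
    Integrable (fun a => g a * Real.exp (-c * s.f a)) m := by
  obtain ⟨hg, C, n, hC, hb⟩ := hg
  refine ((hm (c / 2) (by positivity)).const_mul
    (C * ((2 / c) ^ n * n.factorial * Real.exp (c / 2)))).mono'
    (Continuous.aestronglyMeasurable (by fun_prop)) (ae_of_all _ fun a => ?_)
  have h1 := Real.pow_div_factorial_le_exp (c / 2 * (1 + s.f a)) (by have := h0 a; positivity) n
  rw [div_le_iff₀ (by positivity), mul_add, mul_one, Real.exp_add] at h1
  have h2 : (1 + s.f a) ^ n = (2 / c) ^ n * (c / 2 * (1 + s.f a)) ^ n := by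
    rw [← mul_pow]; congr 1; field_simp
  have h3 : Real.exp (-(c / 2) * s.f a) = Real.exp (c / 2 * s.f a) * Real.exp (-c * s.f a) := by
    rw [← Real.exp_add]; congr 1; ring
  have h4 := hb a
  rw [abs_of_nonneg (h0 a), h2, mul_add, mul_one] at h4
  rw [norm_mul, Real.norm_of_nonneg (Real.exp_pos _).le, h3, ← mul_assoc]
  refine mul_le_mul_of_nonneg_right (h4.trans ?_) (Real.exp_pos _).le
  have h5 := mul_le_mul_of_nonneg_left h1 (show 0 ≤ C * (2 / c) ^ n by positivity)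
  linarith

end PG
end

variable {k : ℕ}

/-- the kernel -/
noncomputable def kx (x : ℝ) (y w : E k) : ℝ :=
  Real.exp (-(k / 2 * Real.log (1 - x ^ 2)) -
    (‖y‖ ^ 2 - 2 * x * ⟪y, w⟫ + ‖w‖ ^ 2) / (2 * (1 - x ^ 2)))

/-- the logarithmic derivative of the kernel -/
noncomputable def ell (x : ℝ) (y w : E k) : ℝ :=
  k * x / (1 - x ^ 2) + (⟪y, w⟫ * (1 + x ^ 2) - x * ‖y‖ ^ 2 - x * ‖w‖ ^ 2) / (1 - x ^ 2) ^ 2

theorem kx_pos (x : ℝ) (y w : E k) : 0 < kx x y w := Real.exp_pos _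

theorem kx_comm (x : ℝ) (y w : E k) : kx x y w = kx x w y := by
  rw [kx, kx, real_inner_comm y w]
  ring_nf

theorem kx_zero (y w : E k) :
    kx 0 y w = Real.exp (-‖y‖ ^ 2 / 2) * Real.exp (-‖w‖ ^ 2 / 2) := by
  rw [kx, ← Real.exp_add]
  congr 1
  simp
  ring

theorem hasDerivAt_kx {x : ℝ} (hx : x ^ 2 < 1) (y w : E k) :
    HasDerivAt (fun x => kx x y w) (ell x y w * kx x y w) x := by
  have h0 : 1 - x ^ 2 ≠ 0 := by linarith
  have h1 : HasDerivAt (fun x : ℝ => 1 - x ^ 2) (-(2 * x)) x := by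
    simpa using (hasDerivAt_pow 2 x).const_sub 1
  have h2 : HasDerivAt (fun x : ℝ => ‖y‖ ^ 2 - 2 * x * ⟪y, w⟫ + ‖w‖ ^ 2) (-(2 * ⟪y, w⟫)) x := by
    simpa using ((((hasDerivAt_id x).const_mul 2).mul_const ⟪y, w⟫).const_sub (‖y‖ ^ 2)).add_const
      (‖w‖ ^ 2)
  have := ((((h1.log h0).const_mul ((k : ℝ) / 2)).fun_neg).fun_sub
    (h2.fun_div (h1.const_mul 2) (mul_ne_zero two_ne_zero h0))).exp
  refine this.congr_deriv ?_
  rw [mul_comm, ell]
  congr 1
  field_simp
  ring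

theorem kx_le {x b : ℝ} (hx : x ^ 2 ≤ b) (hb : b < 1) (y w : E k) :
    kx x y w ≤ Real.exp (-(k / 2 * Real.log (1 - b))) *
      Real.exp (-(1 / 4) * (‖y‖ ^ 2 + ‖w‖ ^ 2)) := by
  rw [kx, ← Real.exp_add, Real.exp_le_exp, sub_eq_add_neg]
  have h0 : 0 < 1 - x ^ 2 := by linarith
  refine add_le_add (neg_le_neg (mul_le_mul_of_nonneg_left
    (Real.log_le_log (by linarith) (by linarith)) (by positivity))) ?_
  rw [neg_mul, neg_le_neg_iff, le_div_iff₀ (by positivity)]
  have h1 : x * ⟪y, w⟫ ≤ |x| * (‖y‖ * ‖w‖) := (le_abs_self _).trans (by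
    rw [abs_mul]; exact mul_le_mul_of_nonneg_left (abs_real_inner_le_norm _ _) (abs_nonneg _))
  rw [← sq_abs x]
  nlinarith [mul_nonneg (abs_nonneg x) (sq_nonneg (‖y‖ - ‖w‖)),
    mul_nonneg (sq_nonneg (1 - |x|)) (add_nonneg (sq_nonneg ‖y‖) (sq_nonneg ‖w‖))]

theorem ell_le {x b : ℝ} (hx : x ^ 2 ≤ b) (hb : b < 1) (y w : E k) :
    |ell x y w| ≤ k / (1 - b) + 2 * (‖y‖ ^ 2 + ‖w‖ ^ 2) / (1 - b) ^ 2 := by
  have h0 : 0 < 1 - b := by linarith
  have h1 : |x| ≤ 1 := by rw [← sq_le_one_iff_abs_le_one]; linarith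
  have h2 : 1 - b ≤ 1 - x ^ 2 := by linarith
  refine (abs_add_le _ _).trans (add_le_add ?_ ?_)
  · rw [abs_div, abs_mul, abs_of_pos (h0.trans_le h2), Nat.abs_cast]
    exact div_le_div₀ (by positivity) (mul_le_of_le_one_right (by positivity) h1) h0 h2
  · rw [abs_div, abs_pow, sq_abs]
    refine div_le_div₀ (by positivity) ?_ (by positivity) (pow_le_pow_left₀ h0.le h2 2)
    have h3 := abs_le.1 (abs_real_inner_le_norm y w)
    have h4 := abs_le.1 h1
    have h5 : 0 ≤ ‖y‖ * ‖w‖ := by positivity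
    have h6 : x ^ 2 ≤ 1 := by linarith
    rw [abs_le]
    constructor <;> nlinarith [sq_nonneg (‖y‖ - ‖w‖), sq_nonneg x, sq_nonneg ‖y‖, sq_nonneg ‖w‖,
      mul_nonneg (sub_nonneg.2 h3.1) (sq_nonneg x), mul_nonneg (sub_nonneg.2 h3.2) (sq_nonneg x)]

section
variable {α : Type} [TopologicalSpace α] [MeasurableSpace α] [OpensMeasurableSpace α]
  {m : Measure α} {Y W : α → E k} {g : α → ℝ}

/-- the size function -/
noncomputable abbrev sz (Y W : α → E k) : Sz α := ⟨fun a => ‖Y a‖ ^ 2 + ‖W a‖ ^ 2⟩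

/-- Gaussians are integrable -/
structure GI (m : Measure α) (Y W : α → E k) : Prop where
  cY : Continuous Y
  cW : Continuous W
  int : ∀ c : ℝ, 0 < c → Integrable (fun a => Real.exp (-c * (‖Y a‖ ^ 2 + ‖W a‖ ^ 2))) m

omit [OpensMeasurableSpace α] in
theorem GI.pgY (h : GI m Y W) : PG (sz Y W) Y :=
  PG.of_sq h.cY fun _ => le_add_of_nonneg_right (sq_nonneg _)
omit [OpensMeasurableSpace α] in
theorem GI.pgW (h : GI m Y W) : PG (sz Y W) W :=
  PG.of_sq h.cW fun _ => le_add_of_nonneg_left (sq_nonneg _)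

theorem GI.gauss (h : GI m Y W) (hg : PG (sz Y W) g) {c : ℝ} (hc : 0 < c) :
    Integrable (fun a => g a * Real.exp (-c * (‖Y a‖ ^ 2 + ‖W a‖ ^ 2))) m :=
  hg.integrable (by have := h.cY; have := h.cW; fun_prop) (fun _ => by positivity) h.int hc

omit [MeasurableSpace α] [OpensMeasurableSpace α] in
theorem continuous_kx (x : ℝ) (hY : Continuous Y) (hW : Continuous W) :
    Continuous fun a => kx x (Y a) (W a) := by
  unfold kx
  fun_prop

theorem GI.ker (h : GI m Y W) (hg : PG (sz Y W) g) {x : ℝ} (hx : x ^ 2 < 1) :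
    Integrable (fun a => g a * kx x (Y a) (W a)) m := by
  refine ((h.gauss hg.norm (c := 1 / 4) (by norm_num)).const_mul
    (Real.exp (-(k / 2 * Real.log (1 - x ^ 2))))).mono'
    (hg.1.mul (continuous_kx x h.cY h.cW)).aestronglyMeasurable (ae_of_all _ fun a => ?_)
  rw [norm_mul, Real.norm_of_nonneg (kx_pos _ _ _).le, mul_left_comm]
  exact mul_le_mul_of_nonneg_left (kx_le le_rfl hx _ _) (norm_nonneg _)

omit [OpensMeasurableSpace α] in
theorem GI.pg_ell (h : GI m Y W) (x : ℝ) : PG (sz Y W) fun a => ell x (Y a) (W a) := by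
  have := h.pgY
  have := h.pgW
  unfold ell
  fun_prop

theorem GI.deriv (h : GI m Y W) (hg : PG (sz Y W) g) {x : ℝ} (hx : x ^ 2 < 1) :
    HasDerivAt (fun x => ∫ a, g a * kx x (Y a) (W a) ∂m)
      (∫ a, g a * ell x (Y a) (W a) * kx x (Y a) (W a) ∂m) x := by
  set b := (x ^ 2 + 1) / 2 with hb
  have hb1 : b < 1 := by linarith
  have hn : {t : ℝ | t ^ 2 < b} ∈ 𝓝 x :=
    (isOpen_lt (by fun_prop) continuous_const).mem_nhds (show x ^ 2 < b by linarith)
  have hY := h.pgY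
  have hW := h.pgW
  have hp : PG (sz Y W) fun a => ‖g a‖ * (k / (1 - b) + 2 * (‖Y a‖ ^ 2 + ‖W a‖ ^ 2) / (1 - b) ^ 2) *
      Real.exp (-(k / 2 * Real.log (1 - b))) := by fun_prop
  refine (hasDerivAt_integral_of_dominated_loc_of_deriv_le hn
    (F' := fun x a => g a * ell x (Y a) (W a) * kx x (Y a) (W a))
    (Eventually.of_forall fun x => (hg.1.mul (continuous_kx x h.cY h.cW)).aestronglyMeasurable)
    (h.ker hg hx) (h.ker (hg.mul (h.pg_ell x)) hx).1 (ae_of_all _ fun a t ht => ?_)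
    (h.gauss hp (c := 1 / 4) (by norm_num)) (ae_of_all _ fun a t ht => ?_)).2
  · rw [norm_mul, norm_mul, Real.norm_of_nonneg (kx_pos _ _ _).le, mul_assoc _ (Real.exp _)]
    exact mul_le_mul (mul_le_mul_of_nonneg_left (ell_le (le_of_lt ht) hb1 _ _) (norm_nonneg _))
      (kx_le (le_of_lt ht) hb1 _ _) (kx_pos _ _ _).le
      (by have : 0 < 1 - b := by linarith
          positivity)
  · exact ((hasDerivAt_kx (lt_trans ht hb1) _ _).const_mul (g a)).congr_deriv
      (mul_assoc _ _ _).symm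

end

end Pool.Agent.P.MP_2b44f0_gt.Gap
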