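import Pool.Agent.P.MP_2b44f0_gt.Gap.Poly
import Pool.Agent.P.MP_2b44f0_gt.Gap.Layer

/-! Identities and bounds for the rows of the kernel. -/

namespace Pool.Agent.P.MP_2b44f0_gt.Gap

open MeasureTheory Metric Filter Topology Set
open scoped RealInnerProductSpace

variable {k : ℕ}

section
variable {α : Type} [TopologicalSpace α] [MeasurableSpace α] [OpensMeasurableSpace α]
  {m : Measure α} {Y W : α → E k} {g g1 g2 g3 : α → ℝ} {x : ℝ}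

theorem GI.lin2 (h : GI m Y W) (hx : x ^ 2 < 1) (a b : ℝ) (e : ∀ᵐ p ∂m, g p = a * g1 p + b * g2 p)
    (h1 : PG (sz Y W) g1) (h2 : PG (sz Y W) g2) :
    ∫ p, g p * kx x (Y p) (W p) ∂m =
      a * ∫ p, g1 p * kx x (Y p) (W p) ∂m + b * ∫ p, g2 p * kx x (Y p) (W p) ∂m := by
  rw [← integral_const_mul, ← integral_const_mul,
    ← integral_add ((h.ker h1 hx).const_mul a) ((h.ker h2 hx).const_mul b)]
  refine integral_congr_ae (e.mono fun p hp => ?_)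
  simp only [hp]
  ring

theorem GI.lin3 (h : GI m Y W) (hx : x ^ 2 < 1) (a b c : ℝ)
    (e : ∀ᵐ p ∂m, g p = a * g1 p + b * g2 p + c * g3 p)
    (h1 : PG (sz Y W) g1) (h2 : PG (sz Y W) g2) (h3 : PG (sz Y W) g3) :
    ∫ p, g p * kx x (Y p) (W p) ∂m =
      a * ∫ p, g1 p * kx x (Y p) (W p) ∂m + b * ∫ p, g2 p * kx x (Y p) (W p) ∂m +
        c * ∫ p, g3 p * kx x (Y p) (W p) ∂m := by
  rw [h.lin2 hx 1 c (g1 := fun p => a * g1 p + b * g2 p) (by simpa using e) (by fun_prop) h3,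
    h.lin2 hx a b (ae_of_all _ fun _ => rfl) h1 h2, one_mul]

theorem GI.zero3 (h : GI m Y W) (hx : x ^ 2 < 1) (a b c : ℝ)
    (z1 : ∫ p, g1 p * kx x (Y p) (W p) ∂m = 0) (z2 : ∫ p, g2 p * kx x (Y p) (W p) ∂m = 0)
    (z3 : ∫ p, g3 p * kx x (Y p) (W p) ∂m = 0)
    (h1 : PG (sz Y W) g1) (h2 : PG (sz Y W) g2) (h3 : PG (sz Y W) g3)
    (e : ∀ᵐ p ∂m, g p = a * g1 p + b * g2 p + c * g3 p) :
    ∫ p, g p * kx x (Y p) (W p) ∂m = 0 := by
  rw [h.lin3 hx a b c e h1 h2 h3, z1, z2, z3]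
  simp

theorem GI.mono (h : GI m Y W) (hx : x ^ 2 < 1) (e : ∀ p, g1 p ≤ g2 p)
    (h1 : PG (sz Y W) g1) (h2 : PG (sz Y W) g2) :
    ∫ p, g1 p * kx x (Y p) (W p) ∂m ≤ ∫ p, g2 p * kx x (Y p) (W p) ∂m :=
  integral_mono (h.ker h1 hx) (h.ker h2 hx) fun p =>
    mul_le_mul_of_nonneg_right (e p) (kx_pos _ _ _).le

end

/-- the standing hypotheses -/
structure Ctx (V : Measure (E k × Gr k)) : Prop where
  st : Stationary V
  hom : Hom V.fst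
  int : ∀ c : ℝ, 0 < c → Integrable (fun w => Real.exp (-c * ‖w‖ ^ 2)) V.fst

variable {V : Measure (E k × Gr k)} {x : ℝ}

theorem int_fst {f : E k → ℝ} (hf : Continuous f) : ∫ p, f p.1 ∂V = ∫ w, f w ∂V.fst :=
  (integral_map measurable_fst.aemeasurable hf.aestronglyMeasurable).symm

theorem Ctx.int' (h : Ctx V) {c : ℝ} (hc : 0 < c) :
    Integrable (fun p : E k × Gr k => Real.exp (-c * ‖p.1‖ ^ 2)) V :=
  (h.int c hc).comp_measurable measurable_fst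

theorem Ctx.gi (h : Ctx V) (y : E k) : GI V (fun _ => y) Prod.fst :=
  ⟨continuous_const, continuous_fst, fun c hc => by
    simpa only [mul_add, Real.exp_add] using (h.int' hc).const_mul (Real.exp (-c * ‖y‖ ^ 2))⟩

theorem hasFDerivAt_kx (x : ℝ) (y ω w : E k) (n : ℕ) :
    HasFDerivAt (fun w => ⟪ω, w⟫ ^ n * kx x y w)
      (kx x y w • ((n * ⟪ω, w⟫ ^ (n - 1)) • innerSL ℝ ω -
        (⟪ω, w⟫ ^ n / (1 - x ^ 2)) • innerSL ℝ (w - x • y))) w := by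
  have h1 := (innerSL ℝ ω).hasFDerivAt (x := w)
  have h2 := (innerSL ℝ y).hasFDerivAt (x := w)
  have h3 := (hasStrictFDerivAt_norm_sq w).hasFDerivAt
  have h4 := (((((h2.const_mul (2 * x)).const_sub (‖y‖ ^ 2)).fun_add h3).mul_const
    (2 * (1 - x ^ 2))⁻¹).const_sub (-(k / 2 * Real.log (1 - x ^ 2)))).exp
  refine HasFDerivAt.congr_fderiv ((h1.pow n).fun_mul h4) ?_
  ext v
  simp [kx, div_eq_mul_inv]
  ring

theorem contDiff_kx (x : ℝ) (y ω : E k) (n : ℕ) :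
    ContDiff ℝ 1 fun w => ⟪ω, w⟫ ^ n * kx x y w := by
  have h1 : ∀ a : E k, ContDiff ℝ 1 fun w : E k => ⟪a, w⟫ := fun a => (innerSL ℝ a).contDiff
  have h2 : ContDiff ℝ 1 fun w : E k => ‖w‖ ^ 2 := contDiff_norm_sq ℝ
  exact ((h1 ω).pow n).mul ((contDiff_const.sub (((contDiff_const.sub
    (contDiff_const.mul (h1 y))).add h2).div_const _)).exp)

theorem Ctx.z1 (h : Ctx V) (hx : x ^ 2 < 1) (y ω a : E k) (n : ℕ) :
    ∫ p, (n * ⟪ω, p.1⟫ ^ (n - 1) * ⟪ω, pr p.2 a⟫ - ⟪ω, p.1⟫ ^ n / (1 - x ^ 2) *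
      (⟪p.1, pr p.2 a⟫ - x * ⟪y, pr p.2 a⟫)) * kx x y p.1 ∂V = 0 := by
  have hW := (h.gi y).pgW
  have e : ∀ p : E k × Gr k, (kx x y p.1 • ((n * ⟪ω, p.1⟫ ^ (n - 1)) • innerSL ℝ ω -
      (⟪ω, p.1⟫ ^ n / (1 - x ^ 2)) • innerSL ℝ (p.1 - x • y))) (p.2.1 a) =
      (n * ⟪ω, p.1⟫ ^ (n - 1) * ⟪ω, pr p.2 a⟫ - ⟪ω, p.1⟫ ^ n / (1 - x ^ 2) *
      (⟪p.1, pr p.2 a⟫ - x * ⟪y, pr p.2 a⟫)) * kx x y p.1 := fun p => by
    simp [pr, mul_comm]
  simp only [← e]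
  refine h.st.const (contDiff_kx x y ω n) (fun w => hasFDerivAt_kx x y ω w n) a
    ((h.gi y).ker (by fun_prop) hx) ?_
  simp only [e]
  exact (h.gi y).ker (by fun_prop) hx

theorem Ctx.z2 (h : Ctx V) (hx : x ^ 2 < 1) (y ω : E k) (n : ℕ) :
    ∫ p, (⟪ω, p.1⟫ ^ n * k + n * ⟪ω, p.1⟫ ^ (n - 1) * ⟪ω, pr p.2 p.1⟫ - ⟪ω, p.1⟫ ^ n / (1 - x ^ 2) *
      (⟪p.1, pr p.2 p.1⟫ - x * ⟪y, pr p.2 p.1⟫)) * kx x y p.1 ∂V = 0 := by
  have hW := (h.gi y).pgW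
  have e : ∀ p : E k × Gr k, ⟪ω, p.1⟫ ^ n * kx x y p.1 * k +
      (kx x y p.1 • ((n * ⟪ω, p.1⟫ ^ (n - 1)) • innerSL ℝ ω -
      (⟪ω, p.1⟫ ^ n / (1 - x ^ 2)) • innerSL ℝ (p.1 - x • y))) (p.2.1 p.1) =
      (⟪ω, p.1⟫ ^ n * k + n * ⟪ω, p.1⟫ ^ (n - 1) * ⟪ω, pr p.2 p.1⟫ - ⟪ω, p.1⟫ ^ n / (1 - x ^ 2) *
      (⟪p.1, pr p.2 p.1⟫ - x * ⟪y, pr p.2 p.1⟫)) * kx x y p.1 := fun p => by
    simp [pr]
    ring
  simp only [← e]
  refine h.st.rad (contDiff_kx x y ω n) (fun w => hasFDerivAt_kx x y ω w n) ?_ ?_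
  · simpa only [mul_right_comm] using
      (h.gi y).ker (g := fun p => ⟪ω, p.1⟫ ^ n * ‖p.1‖) (by fun_prop) hx
  · simp only [e]
    exact (h.gi y).ker (by fun_prop) hx

theorem kx_eq (hx : x ^ 2 < 1) (y w : E k) :
    kx x y w = Real.exp (-(k / 2 * Real.log (1 - x ^ 2))) * Real.exp (-‖y‖ ^ 2 / 2) *
      Real.exp (-‖w - x • y‖ ^ 2 / (2 * (1 - x ^ 2))) := by
  have h0 : 1 - x ^ 2 ≠ 0 := by linarith
  rw [kx, ← Real.exp_add, ← Real.exp_add, norm_sub_sq_real, norm_smul, real_inner_smul_right,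
    mul_pow, Real.norm_eq_abs, sq_abs, real_inner_comm y w]
  congr 1
  field_simp
  ring

theorem pow_mul_exp {τ : ℝ} (hτ : 0 < τ) :
    √τ ^ k * Real.exp (-(k / 2 * Real.log τ)) = 1 := by
  rw [← Real.exp_log (Real.sqrt_pos.2 hτ), ← Real.exp_nat_mul, ← Real.exp_add, Real.log_sqrt hτ.le]
  simp only [Real.exp_eq_one_iff]
  ring

/-- the Gaussian mass -/
noncomputable def ZZ (V : Measure (E k × Gr k)) : ℝ := ∫ w, Real.exp (-‖w‖ ^ 2 / 2) ∂V.fst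

theorem Ctx.row0 (h : Ctx V) (hx : x ^ 2 < 1) : ∫ p, 1 * kx x 0 p.1 ∂V = ZZ V := by
  have h0 : 0 < 1 - x ^ 2 := by linarith
  have hc : Continuous fun w : E k => kx x 0 w := continuous_kx x continuous_const continuous_id
  simp only [one_mul]
  rw [int_fst (f := fun w => kx x 0 w) hc, h.hom.integral (Real.sqrt_pos.2 h0) hc, ZZ,
    ← integral_const_mul]
  congr 1
  funext w
  rw [kx_eq hx, ← mul_assoc, ← mul_assoc, pow_mul_exp h0, smul_zero, sub_zero, norm_smul,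
    mul_pow, Real.norm_eq_abs, sq_abs, Real.sq_sqrt h0.le]
  simp only [norm_zero, ne_eq, OfNat.ofNat_ne_zero, not_false_eq_true, zero_pow, neg_zero, zero_div,
    Real.exp_zero, one_mul]
  congr 1
  field_simp

theorem Ctx.cone (h : Ctx V) : ∀ᵐ p ∂V, pr p.2 p.1 = p.1 := by
  have hx : (1 / 2 : ℝ) ^ 2 < 1 := by norm_num
  have hW := (h.gi 0).pgW
  have hl := (h.gi 0).pg_ell (1 / 2)
  have h1 := (h.gi 0).deriv (PG.const 1) hx
  have h2 : HasDerivAt (fun x => ∫ p, 1 * kx x 0 p.1 ∂V) 0 (1 / 2) := by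
    refine (hasDerivAt_const _ (ZZ V)).congr_of_eventuallyEq ?_
    filter_upwards [(isOpen_lt (f := fun t : ℝ => t ^ 2) (by fun_prop) continuous_const).mem_nhds hx]
      with t ht using h.row0 ht
  have h3 : ∫ p, be p.2 p.1 p.1 * kx (1 / 2) 0 p.1 ∂V = 0 := by
    refine (h.gi 0).zero3 hx (3 / 4) (-9 / 8) 0 (h.z2 hx 0 0 0) (h1.unique h2) (h1.unique h2)
      (by fun_prop) (by fun_prop) (by fun_prop) (ae_of_all _ fun p => ?_)
    simp [be, ell, pr]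
    ring
  rw [integral_eq_zero_iff_of_nonneg (fun p => mul_nonneg (be_nonneg _ _) (kx_pos _ _ _).le)
    ((h.gi 0).ker (by fun_prop) hx)] at h3
  filter_upwards [h3] with p hp
  have := (mul_eq_zero.1 hp).resolve_right (kx_pos _ _ _).ne'
  rw [be_self, sq_eq_zero_iff, norm_eq_zero, sub_eq_zero] at this
  exact this.symm

/-- the logarithmic derivative plus the defect -/
noncomputable def DD (x : ℝ) (y : E k) (p : E k × Gr k) : ℝ :=
  ell x y p.1 + x * be p.2 y y / (1 - x ^ 2) ^ 2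

theorem pr_sym (S : Gr k) (a b : E k) : ⟪a, pr S b⟫ = ⟪b, pr S a⟫ := by
  rw [pr, ← S.sym, real_inner_comm, pr]

theorem pr_fix {S : Gr k} {w : E k} (h : pr S w = w) (a : E k) : ⟪w, pr S a⟫ = ⟪a, w⟫ := by
  rw [pr_sym, h]

theorem be_eq (S : Gr k) (a : E k) : be S a a = ‖a‖ ^ 2 - ⟪a, pr S a⟫ := by
  rw [be, real_inner_self_eq_norm_sq, pr]

theorem Ctx.e1 (h : Ctx V) (hx : x ^ 2 < 1) (y : E k) : ∫ p, DD x y p * kx x y p.1 ∂V = 0 := by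
  have hW := (h.gi y).pgW
  have h0 : 1 - x ^ 2 ≠ 0 := by linarith
  refine (h.gi y).zero3 hx (-1 / (1 - x ^ 2)) (x / (1 - x ^ 2)) 0 (h.z1 hx y 0 y 0) (h.z2 hx y 0 0)
    (h.z2 hx y 0 0) (by fun_prop) (by fun_prop) (by fun_prop) (h.cone.mono fun p hp => ?_)
  simp only [DD, ell, be_eq, pr_fix hp, hp, real_inner_self_eq_norm_sq]
  field_simp
  push_cast
  ring

theorem Ctx.e4 (h : Ctx V) (hx : x ^ 2 < 1) (y ω : E k) :
    ∫ p, (⟪ω, p.1⟫ - x * ⟪y, pr p.2 ω⟫) * kx x y p.1 ∂V = 0 := by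
  have hW := (h.gi y).pgW
  have h0 : 1 - x ^ 2 ≠ 0 := by linarith
  refine (h.gi y).zero3 hx (-(1 - x ^ 2)) 0 0 (h.z1 hx y ω ω 0) (h.z2 hx y 0 0)
    (h.z2 hx y 0 0) (by fun_prop) (by fun_prop) (by fun_prop) (h.cone.mono fun p hp => ?_)
  simp only [pr_fix hp]
  field_simp
  push_cast
  ring

theorem Ctx.e2 (h : Ctx V) (hx : x ^ 2 < 1) (y ω : E k) :
    ∫ p, (x * ⟪ω, p.1⟫ * DD x y p - ⟪ω, p.1⟫) * kx x y p.1 ∂V = 0 := by
  have hW := (h.gi y).pgW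
  have h0 : 1 - x ^ 2 ≠ 0 := by linarith
  refine (h.gi y).zero3 hx 1 (-x / (1 - x ^ 2)) (x ^ 2 / (1 - x ^ 2)) (h.z1 hx y ω ω 0)
    (h.z1 hx y ω y 1) (h.z2 hx y ω 1) (by fun_prop) (by fun_prop) (by fun_prop)
    (h.cone.mono fun p hp => ?_)
  simp only [DD, ell, be_eq, pr_fix hp, hp, real_inner_self_eq_norm_sq, pr_sym p.2 ω y]
  field_simp
  push_cast
  ring

theorem Ctx.e3 (h : Ctx V) (hx : x ^ 2 < 1) (y ω : E k) :
    ∫ p, (x * ⟪ω, p.1⟫ ^ 2 * DD x y p - 2 * (⟪ω, p.1⟫ ^ 2 - ⟪ω, pr p.2 ω⟫)) * kx x y p.1 ∂V = 0 := by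
  have hW := (h.gi y).pgW
  have h0 : 1 - x ^ 2 ≠ 0 := by linarith
  refine (h.gi y).zero3 hx 2 (-x / (1 - x ^ 2)) (x ^ 2 / (1 - x ^ 2)) (h.z1 hx y ω ω 1)
    (h.z1 hx y ω y 2) (h.z2 hx y ω 2) (by fun_prop) (by fun_prop) (by fun_prop)
    (h.cone.mono fun p hp => ?_)
  simp only [DD, ell, be_eq, pr_fix hp, hp, real_inner_self_eq_norm_sq, pr_sym p.2 ω y]
  field_simp
  push_cast
  ring

theorem Ctx.e5 (h : Ctx V) (ω : E k) :
    ∫ p, ⟪ω, p.1⟫ ^ 2 * kx 0 0 p.1 ∂V = ∫ p, ⟪ω, pr p.2 ω⟫ * kx 0 0 p.1 ∂V := by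
  have hW := (h.gi 0).pgW
  have hx : (0 : ℝ) ^ 2 < 1 := by norm_num
  have := h.e3 hx 0 ω
  rw [(h.gi 0).lin2 hx (-2) 2 (g1 := fun p => ⟪ω, p.1⟫ ^ 2) (g2 := fun p => ⟪ω, pr p.2 ω⟫)
    (ae_of_all _ fun p => by ring) (by fun_prop) (by fun_prop)] at this
  linarith

/-- the row sums -/
noncomputable def row (V : Measure (E k × Gr k)) (y : E k) (x : ℝ) : ℝ := ∫ p, kx x y p.1 ∂V

theorem sq_lt_one {x : ℝ} (hx : x ∈ Ico (0 : ℝ) 1) : x ^ 2 < 1 := by nlinarith [hx.1, hx.2]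

theorem Ctx.row_anti (h : Ctx V) (y : E k) : AntitoneOn (row V y) (Ico 0 1) := by
  have hW := (h.gi y).pgW
  have hd : ∀ x ∈ Ico (0 : ℝ) 1, HasDerivAt (row V y)
      (-(x / (1 - x ^ 2) ^ 2) * ∫ p, be p.2 y y * kx x y p.1 ∂V) x := fun x hx => by
    have hl := (h.gi y).pg_ell x
    have := (h.gi y).deriv (PG.const 1) (sq_lt_one hx)
    simp only [one_mul] at this
    refine this.congr_deriv ?_
    rw [(h.gi y).lin2 (sq_lt_one hx) 1 (-(x / (1 - x ^ 2) ^ 2)) (g1 := DD x y)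
      (g2 := fun p => be p.2 y y) (ae_of_all _ fun p => by unfold DD; ring)
      (by unfold DD; fun_prop) (by fun_prop), h.e1 (sq_lt_one hx), mul_zero, zero_add]
  refine antitoneOn_of_hasDerivWithinAt_nonpos (convex_Ico 0 1)
    (fun x hx => (hd x hx).continuousAt.continuousWithinAt)
    (fun x hx => (hd x (interior_subset hx)).hasDerivWithinAt) fun x hx => ?_
  have := (interior_subset hx).1
  exact mul_nonpos_of_nonpos_of_nonneg (neg_nonpos.2 (by positivity))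
    (integral_nonneg fun p => mul_nonneg (be_nonneg _ _) (kx_pos _ _ _).le)

theorem row_zero (y : E k) : row V y 0 = ZZ V * Real.exp (-‖y‖ ^ 2 / 2) := by
  simp only [row, kx_zero, integral_const_mul]
  rw [int_fst (f := fun w => Real.exp (-‖w‖ ^ 2 / 2)) (by fun_prop), mul_comm, ZZ]

theorem Ctx.row_le (h : Ctx V) (y : E k) (hx : x ∈ Ico (0 : ℝ) 1) :
    row V y x ≤ ZZ V * Real.exp (-‖y‖ ^ 2 / 2) :=
  row_zero y ▸ h.row_anti y ⟨le_rfl, one_pos⟩ hx hx.1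

theorem Ctx.le_row (h : Ctx V) {y : E k} (hy : 1 ≤ liminf (ratio V.fst y) (𝓝[>] 0))
    (hx : x ∈ Ico (0 : ℝ) 1) : c0 k * Real.exp (-‖y‖ ^ 2 / 2) ≤ row V y x := by
  rw [← le_div_iff₀ (Real.exp_pos _)]
  have h0 : 0 ≤ row V y x := integral_nonneg fun p => (kx_pos _ _ _).le
  refine c0_le hy (by positivity) ?_
  have hc : Continuous fun σ : ℝ => √(1 / (1 + σ ^ 2)) :=
    Continuous.sqrt (continuous_const.div (by fun_prop) fun σ => by positivity)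
  have ev : ∀ᶠ σ : ℝ in 𝓝[>] 0, x < √(1 / (1 + σ ^ 2)) :=
    (hc.continuousAt.eventually (lt_mem_nhds (by simpa using hx.2))).filter_mono nhdsWithin_le_nhds
  filter_upwards [ev, self_mem_nhdsWithin] with σ h1 hσ
  have hσ' : 0 < σ := hσ
  set t := √(1 / (1 + σ ^ 2)) with ht
  have t0 : 0 < t := by positivity
  have t2 : t ^ 2 = 1 / (1 + σ ^ 2) := Real.sq_sqrt (by positivity)
  have t3 : 1 - t ^ 2 = (σ * t) ^ 2 := by rw [mul_pow, t2]; field_simp; ring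
  have t4 : t ^ 2 < 1 := by nlinarith [mul_pos hσ' t0]
  have t5 : t < 1 := by nlinarith
  have hk : ∀ w, Real.exp (-‖w - y‖ ^ 2 / (2 * σ ^ 2)) =
      σ ^ k / Real.exp (-‖y‖ ^ 2 / 2) * (t ^ k * kx t y (t • w)) := fun w => by
    have := pow_mul_exp (k := k) (τ := 1 - t ^ 2) (by linarith)
    rw [t3, Real.sqrt_sq (by positivity), mul_pow] at this
    rw [kx_eq t4, ← smul_sub, norm_smul, t3, Real.norm_of_nonneg t0.le,
      show -(t * ‖w - y‖) ^ 2 / (2 * (σ * t) ^ 2) = -‖w - y‖ ^ 2 / (2 * σ ^ 2) by field_simp]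
    generalize Real.exp (-(k / 2 * Real.log ((σ * t) ^ 2))) = u at this ⊢
    generalize Real.exp (-‖w - y‖ ^ 2 / (2 * σ ^ 2)) = v
    have h2 := (Real.exp_pos (-‖y‖ ^ 2 / 2)).ne'
    generalize Real.exp (-‖y‖ ^ 2 / 2) = r at h2 ⊢
    field_simp
    linear_combination (-v) * this
  have hi : Integrable (fun w => Real.exp (-‖w - y‖ ^ 2 / (2 * σ ^ 2))) V.fst := by
    refine ((h.int (1 / (4 * σ ^ 2)) (by positivity)).const_mul
      (Real.exp (‖y‖ ^ 2 / (2 * σ ^ 2)))).mono' (Continuous.aestronglyMeasurable (by fun_prop))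
      (ae_of_all _ fun w => ?_)
    rw [Real.norm_of_nonneg (Real.exp_pos _).le, ← Real.exp_add, Real.exp_le_exp,
      show ‖y‖ ^ 2 / (2 * σ ^ 2) + -(1 / (4 * σ ^ 2)) * ‖w‖ ^ 2 =
        (‖y‖ ^ 2 - ‖w‖ ^ 2 / 2) / (2 * σ ^ 2) by field_simp; ring]
    refine div_le_div_of_nonneg_right ?_ (by positivity)
    have := norm_le_norm_sub_add w y
    nlinarith [sq_nonneg (‖w - y‖ - ‖y‖), norm_nonneg w, norm_nonneg y, norm_nonneg (w - y)]
  rw [← ofReal_integral_eq_lintegral_ofReal hi (ae_of_all _ fun w => (Real.exp_pos _).le)]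
  refine ENNReal.ofReal_le_ofReal ?_
  have hc : Continuous fun w : E k => kx t y w := continuous_kx t continuous_const continuous_id
  simp only [hk]
  rw [integral_const_mul, integral_const_mul, ← h.hom.integral t0 hc,
    ← int_fst (f := fun w => kx t y w) hc, div_mul_eq_mul_div, div_mul_eq_mul_div, mul_comm]
  refine div_le_div_of_nonneg_right (mul_le_mul_of_nonneg_right ?_ (by positivity))
    (Real.exp_pos _).le
  exact h.row_anti y hx ⟨t0.le, t5⟩ h1.le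

end Pool.Agent.P.MP_2b44f0_gt.Gap
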