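import Pool.Agent.P.MP_2b44f0_gt.Gap.Defs

/-! The first variation formula for integrable vector fields. -/

namespace Pool.Agent.P.MP_2b44f0_gt.Gap

open MeasureTheory Metric Filter Topology Set
open scoped RealInnerProductSpace

variable {k : ℕ}

theorem Gr.sym (S : Gr k) (a b : E k) : ⟪S.1 a, b⟫ = ⟪a, S.1 b⟫ :=
  (ContinuousLinearMap.isSelfAdjoint_iff_isSymmetric.1 S.2.1.isSelfAdjoint) a b

theorem Gr.idem (S : Gr k) (a : E k) : S.1 (S.1 a) = S.1 a :=
  congrArg (fun T : E k →L[ℝ] E k => T a) S.2.1.isIdempotentElem.eq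

theorem Gr.trace (S : Gr k) : LinearMap.trace ℝ (E k) S.1.toLinearMap = k := by
  have h : LinearMap.IsProj (LinearMap.range S.1.toLinearMap) S.1.toLinearMap :=
    ⟨fun x => ⟨x, rfl⟩, by rintro _ ⟨x, rfl⟩; exact S.idem x⟩
  rw [h.trace, S.2.2]

/-- the bilinear form of the projection onto the normal line -/
noncomputable def be (S : Gr k) (a b : E k) : ℝ := ⟪a, b⟫ - ⟪a, S.1 b⟫

theorem be_self (S : Gr k) (a : E k) : be S a a = ‖a - S.1 a‖ ^ 2 := by
  rw [norm_sub_sq_real, ← real_inner_self_eq_norm_sq, ← real_inner_self_eq_norm_sq, S.sym, S.idem,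
    be]
  ring

theorem be_nonneg (S : Gr k) (a : E k) : 0 ≤ be S a a := be_self S a ▸ sq_nonneg _

theorem be_comm (S : Gr k) (a b : E k) : be S a b = be S b a := by
  rw [be, be, ← S.sym, real_inner_comm a, real_inner_comm b (S.1 a)]

theorem Gr.norm_le (S : Gr k) (a : E k) : ‖S.1 a‖ ≤ ‖a‖ := by
  have h := be_nonneg S a
  rw [be, ← S.idem, ← S.sym, real_inner_self_eq_norm_sq, real_inner_self_eq_norm_sq] at h
  exact (sq_le_sq₀ (norm_nonneg _) (norm_nonneg _)).1 (by linarith)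

theorem be_sq_le (S : Gr k) (a b : E k) : be S a b ^ 2 ≤ be S a a * ‖b‖ ^ 2 := by
  have : be S a b = ⟪a - S.1 a, b⟫ := by rw [inner_sub_left, S.sym, be]
  rw [this, be_self, ← mul_pow, ← sq_abs]
  exact pow_le_pow_left₀ (abs_nonneg _) (abs_real_inner_le_norm _ _) 2

theorem be_sum (S : Gr k) (b : OrthonormalBasis (Fin (k + 1)) ℝ (E k)) :
    ∑ i, be S (b i) (b i) = 1 := by
  have := LinearMap.trace_eq_sum_inner S.1.toLinearMap b
  rw [S.trace] at this
  simp only [be, Finset.sum_sub_distrib, real_inner_self_eq_norm_sq, b.norm_eq_one]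
  simp only [ContinuousLinearMap.coe_coe] at this
  rw [← this]
  simp

theorem divS_smul (S : Gr k) {φ : E k → ℝ} {X : E k → E k} {x : E k} {φ' : E k →L[ℝ] ℝ}
    (hφ : HasFDerivAt φ φ' x) (hX : DifferentiableAt ℝ X x) :
    divS S (fun y => φ y • X y) x = φ x * divS S X x + φ' (S.1 (X x)) := by
  have e : (S.1 ∘L (φ x • fderiv ℝ X x + φ'.smulRight (X x))).toLinearMap =
      φ x • (S.1 ∘L fderiv ℝ X x).toLinearMap + φ'.toLinearMap.smulRight (S.1 (X x)) := by
    ext1 v
    simp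
  rw [divS, (hφ.fun_smul hX.hasFDerivAt).fderiv, e, map_add, map_smul, LinearMap.trace_smulRight]
  rfl

theorem continuous_divS {X : E k → E k} (hX : ContDiff ℝ 1 X) :
    Continuous fun p : E k × Gr k => divS p.2 X p.1 := by
  have := hX.continuous_fderiv one_ne_zero
  simp only [divS, LinearMap.trace_eq_sum_inner _ (EuclideanSpace.basisFun (Fin (k + 1)) ℝ),
    ContinuousLinearMap.coe_coe, ContinuousLinearMap.comp_apply]
  fun_prop

variable {V : Measure (E k × Gr k)}

theorem Stationary.field (hs : Stationary V) {X : E k → E k} (hX : ContDiff ℝ 1 X)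
    (i1 : Integrable (fun p : E k × Gr k => ‖X p.1‖) V)
    (i2 : Integrable (fun p : E k × Gr k => divS p.2 X p.1) V) :
    ∫ p, divS p.2 X p.1 ∂V = 0 := by
  let χ : ContDiffBump (0 : E k) := ⟨1, 2, one_pos, one_lt_two⟩
  have hχ : ContDiff ℝ 1 χ := χ.contDiff
  obtain ⟨C, hC⟩ := (hχ.continuous_fderiv one_ne_zero).bounded_above_of_compact_support
    (χ.hasCompactSupport.fderiv ℝ)
  have hC0 : 0 ≤ C := (norm_nonneg _).trans (hC 0)
  let c : ℕ → ℝ := fun n => 1 / ((n : ℝ) + 1)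
  have hc : ∀ n, 0 < c n := fun n => by positivity
  have hc1 : ∀ n, c n ≤ 1 := fun n => by
    rw [div_le_one (by positivity)]; linarith [n.cast_nonneg (α := ℝ)]
  have hct : Tendsto c atTop (𝓝 0) := tendsto_one_div_add_atTop_nhds_zero_nat
  have hn : ∀ n, ContDiff ℝ 1 fun y => χ (c n • y) • X y := fun n => by fun_prop
  have hd : ∀ n (p : E k × Gr k), divS p.2 (fun y => χ (c n • y) • X y) p.1 =
      χ (c n • p.1) * divS p.2 X p.1 + c n * fderiv ℝ χ (c n • p.1) (p.2.1 (X p.1)) := by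
    intro n p
    have h1 := ((hχ.differentiable one_ne_zero) (c n • p.1)).hasFDerivAt.comp p.1
      ((hasFDerivAt_id p.1).const_smul (c n))
    rw [divS_smul p.2 (φ := fun y => χ (c n • y)) h1 (hX.differentiable one_ne_zero p.1)]
    simp
  have hb : ∀ n (p : E k × Gr k), |fderiv ℝ χ (c n • p.1) (p.2.1 (X p.1))| ≤ C * ‖X p.1‖ :=
    fun n p => ((fderiv ℝ χ _).le_opNorm _).trans
      (mul_le_mul (hC _) (p.2.norm_le _) (norm_nonneg _) hC0)
  have h0 : ∀ n, ∫ p, divS p.2 (fun y => χ (c n • y) • X y) p.1 ∂V = 0 := fun n =>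
    hs _ (hn n) ((χ.hasCompactSupport.comp_smul (hc n).ne').smul_right)
  have T := tendsto_integral_of_dominated_convergence (μ := V)
    (F := fun n p => divS p.2 (fun y => χ (c n • y) • X y) p.1) (f := fun p => divS p.2 X p.1)
    (fun p => ‖divS p.2 X p.1‖ + C * ‖X p.1‖)
    (fun n => (continuous_divS (hn n)).aestronglyMeasurable) (i2.norm.add (i1.const_mul C))
    (fun n => ae_of_all _ fun p => ?_) (ae_of_all _ fun p => ?_)
  · simp only [h0] at T
    exact (tendsto_nhds_unique tendsto_const_nhds T).symm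
  · rw [hd]
    refine (norm_add_le _ _).trans (add_le_add ?_ ?_)
    · rw [norm_mul, Real.norm_of_nonneg χ.nonneg]
      exact mul_le_of_le_one_left (norm_nonneg _) χ.le_one
    · rw [norm_mul, Real.norm_of_nonneg (hc n).le]
      exact (mul_le_of_le_one_left (norm_nonneg _) (hc1 n)).trans (hb n p)
  · simp only [hd]
    have t1 : Tendsto (fun n => χ (c n • p.1)) atTop (𝓝 1) := by
      have := (χ.continuous.tendsto _).comp (hct.smul_const p.1)
      rwa [zero_smul, χ.one_of_mem_closedBall (mem_closedBall_self zero_le_one)] at this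
    have t2 : Tendsto (fun n => c n * fderiv ℝ χ (c n • p.1) (p.2.1 (X p.1))) atTop (𝓝 0) :=
      hct.zero_mul_isBoundedUnder_le (isBoundedUnder_of ⟨_, fun n => hb n p⟩)
    simpa using (t1.mul_const _).add t2

theorem Stationary.const (hs : Stationary V) {φ : E k → ℝ} {φ' : E k → E k →L[ℝ] ℝ}
    (hφ : ContDiff ℝ 1 φ) (hd : ∀ w, HasFDerivAt φ (φ' w) w) (a : E k)
    (i1 : Integrable (fun p : E k × Gr k => φ p.1) V)
    (i2 : Integrable (fun p : E k × Gr k => φ' p.1 (p.2.1 a)) V) :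
    ∫ p, φ' p.1 (p.2.1 a) ∂V = 0 := by
  have e : ∀ p : E k × Gr k, divS p.2 (fun y => φ y • a) p.1 = φ' p.1 (p.2.1 a) := fun p => by
    rw [divS_smul p.2 (hd _) (differentiableAt_const a)]
    simp [divS]
  simp only [← e] at i2 ⊢
  refine hs.field (by fun_prop) ?_ i2
  simpa only [norm_smul] using i1.norm.mul_const ‖a‖

theorem Stationary.rad (hs : Stationary V) {φ : E k → ℝ} {φ' : E k → E k →L[ℝ] ℝ}
    (hφ : ContDiff ℝ 1 φ) (hd : ∀ w, HasFDerivAt φ (φ' w) w)
    (i1 : Integrable (fun p : E k × Gr k => φ p.1 * ‖p.1‖) V)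
    (i2 : Integrable (fun p : E k × Gr k => φ p.1 * k + φ' p.1 (p.2.1 p.1)) V) :
    ∫ p, φ p.1 * k + φ' p.1 (p.2.1 p.1) ∂V = 0 := by
  have e : ∀ p : E k × Gr k, divS p.2 (fun y => φ y • y) p.1 =
      φ p.1 * k + φ' p.1 (p.2.1 p.1) := fun p => by
    rw [divS_smul p.2 (hd _) differentiableAt_fun_id, ← p.2.trace]
    simp [divS]
  simp only [← e] at i2 ⊢
  refine hs.field (by fun_prop) ?_ i2
  simpa only [norm_smul, norm_mul, norm_norm] using i1.norm

end Pool.Agent.P.MP_2b44f0_gt.Gap
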