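import Pool.Agent.P.MP_2b44f0_gt.Gap.Main
import Pool.Agent.P.MP_2b44f0_gt.Gap.Gen

/-! Transport of the density gap to an arbitrary Euclidean space. -/

namespace Pool.Agent.P.MP_2b44f0_gt.Vf

open MeasureTheory Metric Filter Topology Set
open scoped RealInnerProductSpace

theorem gap_std (k : ℕ) (V : Measure (Gap.E k × Gap.Gr k)) [IsFiniteMeasureOnCompacts V.fst]
    (hs : Gap.Stationary V) (hc : Gap.IsCone V) (hd : Gap.DensityGeOne V.fst)
    (hf : ¬ ∃ ω : Gap.E k, ω ≠ 0 ∧ ∀ᵐ x ∂V.fst, inner ℝ ω x = 0) :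
    101 / 100 < Gap.ratio V.fst 0 1 := by
  have : SigmaFinite V := SigmaFinite.of_map V measurable_fst.aemeasurable
    (inferInstanceAs (SigmaFinite V.fst))
  by_contra h
  have h1 : Gap.ratio V.fst 0 1 ≤ ENNReal.ofReal (101 / 100) := by
    rw [ENNReal.ofReal_div_of_pos (by norm_num)]
    simpa using h
  exact Gap.Ctx.gap ⟨hs, hc.hom, fun c hc' => hc.hom.integrable hc'⟩ hd hf
    (hc.hom.gauss_le (by norm_num) h1)

variable {E : Type} [NormedAddCommGroup E] [InnerProductSpace ℝ E] {k : ℕ}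

/-- conjugation by an isometry -/
noncomputable def cj {E F : Type} [NormedAddCommGroup E] [InnerProductSpace ℝ E]
    [NormedAddCommGroup F] [InnerProductSpace ℝ F] (e : E ≃ₗᵢ[ℝ] F) (P : E →L[ℝ] E) : F →L[ℝ] F :=
  (e : E →L[ℝ] F) ∘L P ∘L (e.symm : F →L[ℝ] E)

theorem cj_prop {E F : Type} [NormedAddCommGroup E] [InnerProductSpace ℝ E]
    [NormedAddCommGroup F] [InnerProductSpace ℝ F] (e : E ≃ₗᵢ[ℝ] F) {P : E →L[ℝ] E}
    (h : P.toLinearMap.IsSymmetricProjection ∧
      Module.finrank ℝ (LinearMap.range P.toLinearMap) = k) :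
    (cj e P).toLinearMap.IsSymmetricProjection ∧
      Module.finrank ℝ (LinearMap.range (cj e P).toLinearMap) = k := by
  refine ⟨⟨?_, fun a b => ?_⟩, ?_⟩
  · ext a
    have := congrArg (fun T : E →ₗ[ℝ] E => T (e.symm a)) h.1.isIdempotentElem.eq
    simp only [Module.End.mul_apply, ContinuousLinearMap.coe_coe] at this
    simp [cj, this]
  · have := h.1.isSymmetric (e.symm a) (e.symm b)
    simp only [ContinuousLinearMap.coe_coe] at this
    simp only [cj, ContinuousLinearMap.coe_coe, ContinuousLinearMap.comp_apply]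
    rw [← e.symm.inner_map_map, ← e.symm.inner_map_map a]
    simpa using this
  · have : LinearMap.range (cj e P).toLinearMap =
        (LinearMap.range P.toLinearMap).map e.toLinearEquiv.toLinearMap := by
      ext y
      constructor
      · rintro ⟨x, rfl⟩
        exact ⟨_, ⟨e.symm x, rfl⟩, rfl⟩
      · rintro ⟨_, ⟨x, rfl⟩, rfl⟩
        exact ⟨e x, by simp [cj]⟩
    rw [this, LinearEquiv.finrank_map_eq, h.2]

theorem cj_cj {E F : Type} [NormedAddCommGroup E] [InnerProductSpace ℝ E]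
    [NormedAddCommGroup F] [InnerProductSpace ℝ F] (e : E ≃ₗᵢ[ℝ] F) (P : E →L[ℝ] E) :
    cj e.symm (cj e P) = P := by
  ext a
  simp [cj]

theorem measurable_cj {E F : Type} [NormedAddCommGroup E] [InnerProductSpace ℝ E]
    [NormedAddCommGroup F] [InnerProductSpace ℝ F] (e : E ≃ₗᵢ[ℝ] F) : Measurable (cj e) := by
  refine Continuous.measurable ?_
  unfold cj
  fun_prop

/-- the Grassmannians are identified -/
noncomputable def grEquiv (e : E ≃ₗᵢ[ℝ] Gap.E k) : Gr E k ≃ᵐ Gap.Gr k where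
  toFun S := ⟨cj e S.1, ContinuousLinearMap.isStarProjection_iff_isSymmetricProjection.2
    (cj_prop e S.2).1, (cj_prop e S.2).2⟩
  invFun S := ⟨cj e.symm S.1, cj_prop e.symm
    ⟨ContinuousLinearMap.isStarProjection_iff_isSymmetricProjection.1 S.2.1, S.2.2⟩⟩
  left_inv S := Subtype.ext (cj_cj e S.1)
  right_inv S := Subtype.ext (cj_cj e.symm S.1)
  measurable_toFun := ((measurable_cj e).comp (comap_measurable Gr.proj)).subtype_mk
  measurable_invFun := by
    refine Measurable.of_comap_le ?_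
    rw [grMeasurableSpace, MeasurableSpace.comap_comp]
    exact ((measurable_cj e.symm).comp measurable_subtype_coe).comap_le

theorem divS_grEquiv (e : E ≃ₗᵢ[ℝ] Gap.E k) (S : Gr E k) (X : Gap.E k → Gap.E k) (x : E) :
    Gap.divS (grEquiv e S) X (e x) = divS S (e.symm ∘ X ∘ e) x := by
  have h : fderiv ℝ (e.symm ∘ X ∘ e) x = cj e.symm (fderiv ℝ X (e x)) := by
    rw [e.symm.comp_fderiv, ← e.coe_toContinuousLinearEquiv,
      e.toContinuousLinearEquiv.comp_right_fderiv]
    rfl
  rw [divS, Gap.divS, h, ← LinearMap.trace_conj' _ e.toLinearEquiv]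
  congr 1
  ext1 a
  simp [cj, grEquiv, Gr.proj, LinearEquiv.conj_apply]

theorem gap [FiniteDimensional ℝ E] [MeasurableSpace E] [BorelSpace E]
    (hE : Module.finrank ℝ E = k + 1) (V : Measure (E × Gr E k))
    [IsFiniteMeasureOnCompacts V.fst]
    (hs : Stationary V) (hc : IsCone V) (hd : DensityGeOne k V.fst)
    (hf : ¬ ∃ ω : E, ω ≠ 0 ∧ ∀ᵐ x ∂V.fst, inner ℝ ω x = 0) :
    101 / 100 < ratio k V.fst 0 1 := by
  let e : E ≃ₗᵢ[ℝ] Gap.E k := ((stdOrthonormalBasis ℝ E).reindex (finCongr hE)).repr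
  let m : E ≃ᵐ Gap.E k := e.toHomeomorph.toMeasurableEquiv
  let Φ : E × Gr E k ≃ᵐ Gap.E k × Gap.Gr k := m.prodCongr (grEquiv e)
  have hΦ : ∀ p, Φ p = (e p.1, grEquiv e p.2) := fun p => rfl
  have h1 : (V.map Φ).fst = V.fst.map m := by
    rw [Measure.fst, Measure.fst, Measure.map_map measurable_fst Φ.measurable,
      Measure.map_map m.measurable measurable_fst]
    rfl
  have h2 : ∀ x r, Gap.ratio (V.fst.map m) (e x) r = ratio k V.fst x r := fun x r => by
    rw [Gap.ratio, ratio, m.map_apply]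
    congr 2
    ext y
    exact (by simp : dist (e y) (e x) < r ↔ dist y x < r)
  have : IsFiniteMeasureOnCompacts (V.map Φ).fst := by
    rw [h1]
    refine ⟨fun K hK => ?_⟩
    rw [m.map_apply]
    exact (e.toHomeomorph.isCompact_preimage.2 hK).measure_lt_top
  have := gap_std k (V.map Φ) (fun X hX hK => ?_) (fun t ht => ?_) ?_ ?_
  · rwa [h1, ← e.map_zero, h2] at this
  · rw [integral_map_equiv]
    simp only [hΦ, divS_grEquiv]
    refine hs _ (by fun_prop) ?_
    exact (hK.comp_homeomorph e.toHomeomorph).comp_left (g := e.symm) (map_zero _)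
  · conv_rhs => rw [← hc t ht]
    rw [Measure.map_smul, Measure.map_map (by fun_prop) Φ.measurable,
      Measure.map_map Φ.measurable (by fun_prop)]
    congr 2
    ext1 p
    simp [hΦ]
  · rw [Gap.DensityGeOne, h1, m.measurableEmbedding.ae_map_iff]
    filter_upwards [hd] with x hx
    rwa [show Gap.ratio (V.fst.map m) (m x) = ratio k V.fst x from funext (h2 x)]
  · rintro ⟨ω, h0, hω⟩
    rw [h1, m.measurableEmbedding.ae_map_iff] at hω
    refine hf ⟨e.symm ω, by simpa using h0, ?_⟩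
    filter_upwards [hω] with x hx
    rw [← e.inner_map_map, e.apply_symm_apply]
    exact hx

end Pool.Agent.P.MP_2b44f0_gt.Vf
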